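import Mathlib
import Pool.Agent.W495.FM.SpreadDefs

/-!
# Motivic and `ℓ`-adic homology of the strata of a scheme over a finite field: definitions
-/

set_option autoImplicit false

namespace Pool.Agent.K6.H28.FF

open Pool.Agent.W495.FM

variable {Ω : Type} [Field Ω] {V : Type}

/-- In the degree `(n, k)` each Frobenius invariant class of the scheme `A` is a combination of
motivic classes, and the eigenvalue one is semisimple. -/
def OntoAt (T : Homology Ω V) (A : V) (n k : ℤ) : Prop :=
  (∀ x : T.E A n k, T.frob A n k x = x → x ∈ Submodule.span Ω (Set.range (T.reg A n k))) ∧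
    ∀ x : T.E A n k, T.frob A n k (T.frob A n k x - x) = T.frob A n k x - x → T.frob A n k x = x

/-- In the degree `(n, k)` the extension of the regulator of `A` to `H_n^M(A, ℚ(k)) ⊗ Ω` is
injective. -/
def InjAt (T : Homology Ω V) (A : V) (n k : ℤ) : Prop :=
  ∀ (r : ℕ) (x : Fin r → T.M A n k), LinearIndependent ℚ x →
    LinearIndependent Ω fun l => T.reg A n k (x l)

/-- There are no Frobenius invariant classes in the degree `(n, k)`. -/
def NoInv (T : Homology Ω V) (A : V) (n k : ℤ) : Prop :=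
  ∀ x : T.E A n k, T.frob A n k x = x → x = 0

/-- The scheme `A` is the spectrum of the base field: its motivic homology is `ℚ c` in the degree
`(0, 0)` and zero otherwise, its `ℓ`-adic homology is `Ω` in the degrees `(0, k)` and zero otherwise,
where Frobenius acts on `H_0(A, ℚ_ℓ(k))` as a scalar that is not equal to one for `k ≠ 0`. -/
structure IsPoint (T : Homology Ω V) (A : V) : Prop where
  motivic : ∀ n k : ℤ, n ≠ 0 ∨ k ≠ 0 → ∀ x : T.M A n k, x = 0
  coh : ∀ n k : ℤ, n ≠ 0 → ∀ x : T.E A n k, x = 0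
  frob : ∀ k : ℤ, k ≠ 0 → ∃ u : Ω, u ≠ 1 ∧ ∀ x : T.E A 0 k, T.frob A 0 k x = u • x
  unit : ∃ c : T.M A 0 0, T.reg A 0 0 c ≠ 0 ∧ (∀ x : T.M A 0 0, ∃ a : ℚ, x = a • c) ∧
    ∀ x : T.E A 0 0, ∃ a : Ω, x = a • T.reg A 0 0 c

/-- Classical facts on a scheme `A` of dimension at most `d`. -/
structure Facts (T : Homology Ω V) (A : V) (d : ℤ) : Prop where
  /-- Weights: `H_n(A, ℚ_ℓ(k))` has weights less than zero for `n > d + k`. -/
  weights : ∀ n k : ℤ, d + k < n → NoInv T A n k
  /-- Irreducible components: `CH_d(A)` and `H_(2d)(A, ℚ_ℓ(d))`. -/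
  top : OntoAt T A (2 * d) d ∧ InjAt T A (2 * d) d
  /-- Units: `CH_(d-1)(A, 1)` and `H_(2d-1)(A, ℚ_ℓ(d-1))`, that is the units and the first
  cohomology group with coefficients `ℚ_ℓ(1)` if `A` is smooth. -/
  units : OntoAt T A (2 * d - 1) (d - 1) ∧ InjAt T A (2 * d - 1) (d - 1)
  /-- Divisors: the cycle class map of `CH_(d-1)(A)` is injective (Picard varieties have only finitely
  many rational points). -/
  divisors : InjAt T A (2 * d - 2) (d - 1)

/-- Data of the closed subsets `A`, `B`, ... of a scheme, regarded as reduced schemes `cl A`, and of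
the locally closed subschemes `op A B = A ∖ B`, with their motivic and `ℓ`-adic homology: the
push-forwards `inc` for `A ⊆ A'` and `push` for `A ∖ B ⊆ A' ∖ B`, the restrictions `j` to the open
subscheme `A ∖ B` of `A` and `res` to `A ∖ B' ⊆ A ∖ B` for `B ⊆ B'`, and the boundary maps `del` of the
localisation sequences of `A ∩ B ⊆ A`. -/
structure Strata (T : Homology Ω V) where
  C : Type
  [lat : Lattice C]
  [bot : OrderBot C]
  dim : C → ℤ
  cl : C → V
  op : C → C → V
  inc : ∀ {A A' : C}, A ≤ A' → ∀ n k : ℤ, Hom T (cl A) n k (cl A') n k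
  j : ∀ (A B : C) (n k : ℤ), Hom T (cl A) n k (op A B) n k
  del : ∀ (A B : C) (n k : ℤ), Hom T (op A B) (n + 1) k (cl (A ⊓ B)) n k
  res : ∀ (A : C) {B B' : C}, B ≤ B' → ∀ n k : ℤ, Hom T (op A B) n k (op A B') n k
  push : ∀ {A A' : C}, A ≤ A' → ∀ (B : C) (n k : ℤ), Hom T (op A B) n k (op A' B) n k

attribute [instance] Strata.lat Strata.bot

/-- The square `b ∘ a = d ∘ c` commutes for both homology theories. -/
def Comm {T : Homology Ω V} {A B C D : V} {i₁ k₁ i₂ k₂ i₃ k₃ i₄ k₄ : ℤ}
    (a : Hom T A i₁ k₁ B i₂ k₂) (b : Hom T B i₂ k₂ D i₄ k₄) (c : Hom T A i₁ k₁ C i₃ k₃)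
    (d : Hom T C i₃ k₃ D i₄ k₄) : Prop :=
  (∀ x, b.f (a.f x) = d.f (c.f x)) ∧ ∀ x, b.g (a.g x) = d.g (c.g x)

/-- The triangle `b ∘ a = c` commutes for both homology theories. -/
def Comp {T : Homology Ω V} {A B D : V} {i₁ k₁ i₂ k₂ i₄ k₄ : ℤ}
    (a : Hom T A i₁ k₁ B i₂ k₂) (b : Hom T B i₂ k₂ D i₄ k₄) (c : Hom T A i₁ k₁ D i₄ k₄) : Prop :=
  (∀ x, b.f (a.f x) = c.f x) ∧ ∀ x, b.g (a.g x) = c.g x

variable {T : Homology Ω V}

/-- Dimensions; the empty set has dimension `-1`. -/
structure HasDimension (S : Strata T) : Prop where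
  dim_bot : S.dim ⊥ = -1
  dim_mono : ∀ {A B : S.C}, A ≤ B → S.dim A ≤ S.dim B
  dim_sup : ∀ {A B : S.C} {d : ℤ}, S.dim A ≤ d → S.dim B ≤ d → S.dim (A ⊔ B) ≤ d

/-- Functoriality of push-forward and restriction. -/
structure IsFunctorial (S : Strata T) : Prop where
  inc_inc : ∀ {A A' A'' : S.C} (h : A ≤ A') (h' : A' ≤ A'') (h'' : A ≤ A'') (n k : ℤ),
    Comp (S.inc h n k) (S.inc h' n k) (S.inc h'' n k)
  push_push : ∀ {A A' A'' : S.C} (h : A ≤ A') (h' : A' ≤ A'') (h'' : A ≤ A'') (B : S.C) (n k : ℤ),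
    Comp (S.push h B n k) (S.push h' B n k) (S.push h'' B n k)
  res_res : ∀ (A : S.C) {B B' B'' : S.C} (h : B ≤ B') (h' : B' ≤ B'') (h'' : B ≤ B'') (n k : ℤ),
    Comp (S.res A h n k) (S.res A h' n k) (S.res A h'' n k)
  j_res : ∀ (A : S.C) {B B' : S.C} (h : B ≤ B') (n k : ℤ),
    Comp (S.j A B n k) (S.res A h n k) (S.j A B' n k)

/-- Push-forward commutes with restriction, and the boundary maps are natural. -/
structure IsNatural (S : Strata T) : Prop where
  j_push : ∀ {A A' : S.C} (h : A ≤ A') (B : S.C) (n k : ℤ),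
    Comm (S.j A B n k) (S.push h B n k) (S.inc h n k) (S.j A' B n k)
  push_res : ∀ {A A' : S.C} (h : A ≤ A') {B B' : S.C} (h' : B ≤ B') (n k : ℤ),
    Comm (S.push h B n k) (S.res A' h' n k) (S.res A h' n k) (S.push h B' n k)
  del_push : ∀ {A A' : S.C} (h : A ≤ A') (B : S.C) (n k : ℤ),
    Comm (S.push h B (n + 1) k) (S.del A' B n k) (S.del A B n k)
      (S.inc (inf_le_inf_right B h) n k)
  del_res : ∀ (A : S.C) {B B' : S.C} (h : B ≤ B') (n k : ℤ),
    Comm (S.res A h (n + 1) k) (S.del A B' n k) (S.del A B n k)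
      (S.inc (inf_le_inf_left A h) n k)

/-- The localisation sequences are exact. -/
def IsLocalising (S : Strata T) : Prop :=
  ∀ (A B : S.C) (n k : ℤ),
    IsExact (S.inc (inf_le_left : A ⊓ B ≤ A) n k) (S.j A B n k) ∧
    IsExact (S.j A B (n + 1) k) (S.del A B n k) ∧
    IsExact (S.del A B n k) (S.inc (inf_le_left : A ⊓ B ≤ A) n k)

/-- If `A ⊆ A'` have dimension at most `d` then, for `B'` large enough of dimension less than `d`,
`A ∖ B'` is open and closed in `A' ∖ B'`, and the restriction is a left inverse of the push-forward. -/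
def HasComponents (S : Strata T) : Prop :=
  ∀ {A A' : S.C} (h : A ≤ A') (B : S.C) (d : ℤ), S.dim A' ≤ d → S.dim B < d →
    ∃ B' : S.C, B ≤ B' ∧ S.dim B' < d ∧ ∀ n k : ℤ, ∃ ρ : Hom T (S.op A' B') n k (S.op A B') n k,
      ∀ x, ρ.g ((S.push h B' n k).g x) = x

/-- The facts at the generic points of dimension `d`: `CH^a(K, b) = 0` for `b < a` for their residue
fields `K`, and the cohomology of affine schemes of dimension `d` vanishes in the degrees
`2 d - n > d`. -/
structure HasGeneric (S : Strata T) : Prop where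
  generic : ∀ (A : S.C) (d n k : ℤ), S.dim A ≤ d → n < d + k → ∀ B : S.C, S.dim B < d →
    ∀ m : T.M (S.op A B) n k, ∃ (B' : S.C) (h : B ≤ B'), S.dim B' < d ∧ (S.res A h n k).f m = 0
  affine : ∀ (A : S.C) (d n k : ℤ), S.dim A ≤ d → n < d → ∀ B : S.C, S.dim B < d →
    ∀ x : T.E (S.op A B) n k, ∃ (B' : S.C) (h : B ≤ B'), S.dim B' < d ∧ (S.res A h n k).g x = 0

/-- The standard properties: dimensions, functoriality of push-forward and restriction, exactness and
naturality of the localisation sequences, classical facts on all strata, and facts on the generic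
points. -/
structure IsStrata (S : Strata T) : Prop extends HasDimension S, IsFunctorial S, IsNatural S,
    HasGeneric S where
  exact : IsLocalising S
  split : HasComponents S
  cl_facts : ∀ (A : S.C) (d : ℤ), S.dim A ≤ d → Facts T (S.cl A) d
  op_facts : ∀ (A B : S.C) (d : ℤ), S.dim A ≤ d → Facts T (S.op A B) d

/-- The class at the generic points of dimension `d` of `A` given by the class `x` of `A ∖ B` is
Frobenius invariant: it is invariant after restriction to some `A ∖ B'` with `dim B' < d`. -/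
def GenInv (S : Strata T) (A : S.C) (d : ℤ) {n k : ℤ} (B : S.C) (x : T.E (S.op A B) n k) : Prop :=
  ∃ (B' : S.C) (h : B ≤ B'), S.dim B' < d ∧
    T.frob _ _ _ ((S.res A h n k).g x) = (S.res A h n k).g x

/-- This class is a combination of motivic classes: it is so after restriction to some `A ∖ B'` with
`dim B' < d`. -/
def GenMot (S : Strata T) (A : S.C) (d : ℤ) {n k : ℤ} (B : S.C) (x : T.E (S.op A B) n k) : Prop :=
  ∃ (B' : S.C) (h : B ≤ B'), S.dim B' < d ∧
    (S.res A h n k).g x ∈ Submodule.span Ω (Set.range (T.reg (S.op A B') n k))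

/-- At the generic points of dimension `d` of `A` all Frobenius invariant classes in the homological
degree `(n, k)` are combinations of motivic classes. -/
def Gen (S : Strata T) (A : S.C) (d n k : ℤ) : Prop :=
  ∀ B : S.C, S.dim B < d → ∀ x : T.E (S.op A B) n k, GenInv S A d B x → GenMot S A d B x

/-- Q1 in the degree `(i, j)` for the function fields of the irreducible components of dimension `d`
of `A`: all Frobenius invariant classes in `H^i(F_0 A, ℚ_ℓ(j))` are in the span of the image of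
`CH^j(F(A), 2 j - i)`. -/
def Q1 (S : Strata T) (A : S.C) (d i j : ℤ) : Prop := Gen S A d (2 * d - i) (d - j)

/-- Q1 in the degree `(i, j)` for the function fields of all closed subvarieties of `X` of dimension
`d` (for the generic points of dimension `d` of all closed subsets of dimension at most `d`). -/
def Q1Closed (S : Strata T) (X : S.C) (d i j : ℤ) : Prop :=
  ∀ Z : S.C, Z ≤ X → S.dim Z ≤ d → Q1 S Z d i j

/-- There are no invariant classes except in the degrees `(2 k, k)`; for smooth projective schemes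
this is the theorem of Deligne on the weights. -/
def Pure (T : Homology Ω V) (A : V) : Prop := ∀ n k : ℤ, n ≠ 2 * k → NoInv T A n k

/-- The conjecture of Tate on divisors for the scheme `A` of dimension at most `d`: each Frobenius
invariant class in `H_(2d-2)(A, ℚ_ℓ(d-1))` is a combination of classes of divisors (and the eigenvalue
one is semisimple). -/
def TateDivisors (T : Homology Ω V) (A : V) (d : ℤ) : Prop := OntoAt T A (2 * d - 2) (d - 1)

/-- `CH_(d-2)(A, 1) ⊗ ℚ = 0` for the scheme `A` of dimension `d`; this is the group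
`CH^2(A, 1) ⊗ ℚ = H^1(A, K_2) ⊗ ℚ` if `A` is smooth. -/
def ParshinCodimTwo (T : Homology Ω V) (A : V) (d : ℤ) : Prop :=
  ∀ m : T.M A (2 * d - 3) (d - 2), m = 0

/-- The conjecture of Tate in codimension two for the scheme `A` of dimension `d`: each Frobenius
invariant class in `H_(2d-4)(A, ℚ_ℓ(d-2))`, the group `H^4(A, ℚ_ℓ(2))` if `A` is smooth, is a
combination of classes of cycles, and the eigenvalue one is semisimple. -/
def TateCodimTwo (T : Homology Ω V) (A : V) (d : ℤ) : Prop := OntoAt T A (2 * d - 4) (d - 2)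

/-- The conjecture of Beilinson in codimension two for the scheme `A` of dimension `d`: the cycle class
map `CH_(d-2)(A) ⊗ Ω → H_(2d-4)(A, ℚ_ℓ(d-2))` is injective (rational and homological equivalence
agree). -/
def BeilinsonCodimTwo (T : Homology Ω V) (A : V) (d : ℤ) : Prop := InjAt T A (2 * d - 4) (d - 2)

/-- There is a dominant rational map from `Y` to `Z`, at the generic points of the dimensions
`d' = d + r` of `Y` and `d` of `Z`: for each open subscheme `Z ∖ B` there are a flat pull-back `α` to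
some `Y ∖ B'` and, for each smaller `Y ∖ B''`, a left inverse `β` of its restriction over some
`Z ∖ B₁` (the pull-back to a multisection of `Y ∖ B'' → Z ∖ B₁` followed by the push-forward divided by
the degree). The schemes `Y` and `Z` may belong to different ambient schemes. -/
def Dominates (S' : Strata T) (Y : S'.C) (d' : ℤ) (S : Strata T) (Z : S.C) (d r : ℤ) : Prop :=
  ∀ B : S.C, S.dim B < d → ∃ B' : S'.C, S'.dim B' < d' ∧ ∀ n k : ℤ,
    ∃ α : Hom T (S.op Z B) n k (S'.op Y B') (n + 2 * r) (k + r),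
      ∀ (B'' : S'.C) (h : B' ≤ B''), S'.dim B'' < d' → ∃ (B₁ : S.C) (h₁ : B ≤ B₁), S.dim B₁ < d ∧
        ∃ β : Hom T (S'.op Y B'') (n + 2 * r) (k + r) (S.op Z B₁) n k,
          ∀ x, β.g ((S'.res Y h (n + 2 * r) (k + r)).g (α.g x)) = (S.res Z h₁ n k).g x

/-- The schemes `Y t` have dimension at most `d` and are pure, each of them is dominated by a closed
subset of `X` of dimension at most `d`, each such closed subset is dominated by one of them, and the
closed subsets of `X` and of the schemes `Y t` of dimension at most `d - 1` are dominated by schemes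
`Y t'`. This is true for the family of all smooth projective schemes of dimension `d` (alterations of
`Z` and of `C × ℙ¹`), and `X` projective of dimension `d + 1` (which is finite over `ℙ^(d+1)`). -/
structure IsModels (S : Strata T) (X : S.C) (d : ℤ) {I : Type} (S' : I → Strata T)
    (Y : ∀ t, (S' t).C) : Prop where
  strata : ∀ t, IsStrata (S' t)
  dim_le : ∀ t, (S' t).dim (Y t) ≤ d
  pure : ∀ t, Pure T ((S' t).cl (Y t))
  dominated : ∀ t, ∃ Z : S.C, Z ≤ X ∧ S.dim Z ≤ d ∧ Dominates S Z d (S' t) (Y t) d 0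
  dominates : ∀ Z : S.C, Z ≤ X → S.dim Z ≤ d → ∃ t, Dominates (S' t) (Y t) d S Z d 0
  closed : ∀ C : S.C, C ≤ X → S.dim C ≤ d - 1 → ∃ t, Dominates (S' t) (Y t) d S C (d - 1) 1
  closed' : ∀ (t : I) (C : (S' t).C), C ≤ Y t → (S' t).dim C ≤ d - 1 →
    ∃ t', Dominates (S' t') (Y t') d (S' t) C (d - 1) 1

/-- Q1 descends along dominant rational maps. -/
def Descent (T : Homology Ω V) : Prop :=
  ∀ (S S' : Strata T) (Y : S'.C) (Z : S.C) (d' d r i j : ℤ), IsStrata S → IsStrata S' →
    d' = d + r → Dominates S' Y d' S Z d r → Q1 S' Y d' i j → Q1 S Z d i j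

/-- The degrees `(2, 1)`, `(2, 2)`, `(3, 2)` and `(4, 2)` for the pure (smooth projective) scheme `Y` of
dimension `d`. -/
def SmallDegrees (S : Strata T) (Y : S.C) (d : ℤ) : Prop :=
  (Q1 S Y d 2 1 ↔ TateDivisors T (S.cl Y) d) ∧
  (Q1 S Y d 2 2 ↔ ParshinCodimTwo T (S.cl Y) d) ∧
  ((∀ C : S.C, C ≤ Y → S.dim C ≤ d - 1 → TateDivisors T (S.cl C) (d - 1)) →
    (Q1 S Y d 3 2 ↔ BeilinsonCodimTwo T (S.cl Y) d) ∧
    (Q1 S Y d 4 2 ↔ TateCodimTwo T (S.cl Y) d))

/-- Q1 for `X` of dimension `d + 1` in the degrees `i < j`, `i ≥ 2 j`, `(1, 1)` and `(2, 2)`. -/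
def KnownDegrees (S : Strata T) (X : S.C) (d : ℤ) : Prop :=
  ∀ i j : ℤ, i < j ∨ 2 * j ≤ i ∨ (i = 1 ∧ j = 1) ∨ (i = 2 ∧ j = 2) → Q1 S X (d + 1) i j

/-- Q1 for `X` of dimension `d + 1` in the degree `(3, 2)` is equivalent to the conjecture of Tate on
divisors for all closed subschemes of dimension at most `d`, with or without semisimplicity. -/
def DegreeThreeTwo (S : Strata T) (X : S.C) (d : ℤ) : Prop :=
  (Q1 S X (d + 1) 3 2 ↔ ∀ Z : S.C, Z ≤ X → S.dim Z ≤ d → TateDivisors T (S.cl Z) d) ∧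
  (Q1 S X (d + 1) 3 2 ↔ ∀ Z : S.C, Z ≤ X → S.dim Z ≤ d →
    ∀ x : T.E (S.cl Z) (2 * d - 2) (d - 1), T.frob _ _ _ x = x →
      x ∈ Submodule.span Ω (Set.range (T.reg (S.cl Z) _ _)))

/-- If all closed subschemes of dimension at most `d - 1` of `X` satisfy the conjecture of Tate and
Beilinson, then Q1 for `X` of dimension `d + 1` in the degree `(i, j)`, `j ≥ 1`, is equivalent to Q1 for
all its closed subvarieties of dimension `d` in the degree `(i - 1, j - 1)`. -/
def ResiduePrinciple (S : Strata T) (X : S.C) (d : ℤ) : Prop :=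
  (∀ C : S.C, C ≤ X → S.dim C ≤ d - 1 → TB T (S.cl C)) →
    ∀ i j : ℤ, 1 ≤ j → (Q1 S X (d + 1) i j ↔ Q1Closed S X d (i - 1) (j - 1))

/-- The degrees `(3, 2)`, `(3, 3)`, `(4, 3)` and `(5, 3)` for `X` of dimension `d + 1`, and all degrees for
threefolds `X`, in terms of the schemes `Y t` of dimension `d`. -/
def Dictionary (S : Strata T) (X : S.C) (d : ℤ) {I : Type} (S' : I → Strata T)
    (Y : ∀ t, (S' t).C) : Prop :=
  (Q1 S X (d + 1) 3 2 ↔ ∀ t, TateDivisors T ((S' t).cl (Y t)) d) ∧
  (Q1 S X (d + 1) 3 3 ↔ ∀ t, ParshinCodimTwo T ((S' t).cl (Y t)) d) ∧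
  ((∀ t, TateDivisors T ((S' t).cl (Y t)) d) →
    (Q1 S X (d + 1) 4 3 ↔ ∀ t, BeilinsonCodimTwo T ((S' t).cl (Y t)) d) ∧
    (Q1 S X (d + 1) 5 3 ↔ ∀ t, TateCodimTwo T ((S' t).cl (Y t)) d)) ∧
  (d = 2 → ((∀ i j : ℤ, Q1 S X (d + 1) i j) ↔
    ∀ t, TateDivisors T ((S' t).cl (Y t)) d ∧ ParshinCodimTwo T ((S' t).cl (Y t)) d))

end Pool.Agent.K6.H28.FF
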