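import Pool.Agent.W495.FM.Spread
import Pool.Agent.K6.H28.FF.Defs

/-!
# Regulators in one degree
-/

set_option autoImplicit false
set_option linter.unusedSectionVars false
set_option linter.unusedVariables false

namespace Pool.Agent.K6.H28.FF

open Module Pool.Agent.W495.FM
open scoped TensorProduct

noncomputable section

variable {Ω : Type} [Field Ω] [CharZero Ω] {V : Type}

/-- Injectivity in terms of independence. -/
theorem inj_iff (A : Node Ω) : Function.Injective A.lam ↔
    ∀ (r : ℕ) (x : Fin r → A.M), LinearIndependent ℚ x → LinearIndependent Ω fun k => A.ρ (x k) := by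
  constructor
  · intro h1 r x hx
    have h3 : LinearIndependent Ω fun k => (1 : Ω) ⊗ₜ[ℚ] x k := by
      let b := Module.Basis.extend hx.linearIndepOn_id
      have h4 : LinearIndependent Ω fun k => (Algebra.TensorProduct.basis Ω b) k :=
        (Algebra.TensorProduct.basis Ω b).linearIndependent
      have h5 : ∀ k, x k ∈ hx.linearIndepOn_id.extend (Set.subset_univ _) := fun k =>
        hx.linearIndepOn_id.subset_extend _ ⟨k, rfl⟩
      have h6 := h4.comp (fun k => (⟨x k, h5 k⟩ :
        hx.linearIndepOn_id.extend (Set.subset_univ _))) (by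
          intro k l hkl
          exact hx.injective (Subtype.ext_iff.1 hkl))
      convert h6 using 2 with k
      rw [Function.comp_apply, Algebra.TensorProduct.basis_apply, Module.Basis.extend_apply_self]
    have h7 := h3.map' A.lam (LinearMap.ker_eq_bot.2 h1)
    have h8 : (fun k => A.ρ (x k)) = A.lam ∘ fun k => (1 : Ω) ⊗ₜ[ℚ] x k := by
      funext k
      rw [Function.comp_apply, A.lam_tmul, one_smul]
    rw [h8]
    exact h7
  · intro h2
    rw [injective_iff_map_eq_zero]
    intro t ht
    obtain ⟨r, x, a, hx, rfl⟩ : ∃ (r : ℕ) (x : Fin r → A.M) (a : Fin r → Ω),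
        LinearIndependent ℚ x ∧ t = ∑ k, a k ⊗ₜ x k := by
      let b := Module.Basis.ofVectorSpace ℚ A.M
      let c := Algebra.TensorProduct.basis Ω b
      classical
      let s := (c.repr t).support
      let eq := s.equivFin
      refine ⟨s.card, fun k => b (eq.symm k : _), fun k => c.repr t (eq.symm k : _), ?_, ?_⟩
      · refine b.linearIndependent.comp _ ?_
        intro k l hkl
        exact eq.symm.injective (Subtype.ext hkl)
      · conv_lhs => rw [← c.linearCombination_repr t, Finsupp.linearCombination_apply, Finsupp.sum]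
        rw [← Finset.sum_coe_sort]
        rw [← Equiv.sum_comp eq.symm]
        refine Finset.sum_congr rfl fun k _ => ?_
        rw [Algebra.TensorProduct.basis_apply, TensorProduct.smul_tmul', smul_eq_mul, mul_one]
    rw [map_sum] at ht
    have h4 := Fintype.linearIndependent_iff.1 (h2 r x hx) a (by
      rw [← ht]
      exact Finset.sum_congr rfl fun k _ => (A.lam_tmul _ _).symm)
    refine Finset.sum_eq_zero fun k _ => ?_
    rw [h4 k, TensorProduct.zero_tmul]

/-- The eigenvalue one does not occur. -/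
def NoG (A : Node Ω) : Prop := ∀ e, A.InG e → e = 0

theorem noG_of {A : Node Ω} (h : ∀ e, A.φ e = e → e = 0) : NoG A := by
  rintro e ⟨k, hk⟩
  induction k generalizing e with
  | zero => exact hk
  | succ k ih =>
    rw [pow_succ, Module.End.mul_apply] at hk
    have h1 := ih _ hk
    apply h
    rw [LinearMap.sub_apply, sub_eq_zero] at h1
    exact h1

theorem NoG.onto {A : Node Ω} (h : NoG A) : A.Onto := fun e he =>
  ⟨0, by rw [map_zero, h e he]⟩

theorem inG_of_inv {A : Node Ω} {e : A.E} (h : A.φ e = e) : A.InG e :=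
  ⟨1, by
    rw [pow_one, LinearMap.sub_apply, h]
    exact sub_self _⟩

theorem inG_sub {A : Node Ω} {x y : A.E} (hx : A.InG x) (hy : A.InG y) : A.InG (x - y) := by
  rw [sub_eq_add_neg]
  exact hx.add hy.neg

theorem inG_N {A : Node Ω} {x : A.E} (hx : A.InG x) : A.InG ((A.φ - 1) x) := by
  obtain ⟨k, hk⟩ := hx
  refine ⟨k, ?_⟩
  rw [← Module.End.mul_apply, ← pow_succ, pow_succ', Module.End.mul_apply, hk, map_zero]

theorem N_eq {A : Node Ω} (x : A.E) : (A.φ - 1) x = A.φ x - x := rfl

theorem N_arr {A B : Node Ω} (a : Arrow A B) (x : A.E) : (B.φ - 1) (a.g x) = a.g ((A.φ - 1) x) := by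
  have h := a.frob_pow 1 x
  rwa [pow_one, pow_one] at h

theorem N_lam (A : Node Ω) (t : Ω ⊗[ℚ] A.M) : (A.φ - 1) (A.lam t) = 0 := by
  rw [N_eq, A.φ_lam, sub_self]

/-- Composition of arrows after extension of scalars. -/
theorem ten_comp {A B D : Node Ω} (a : Arrow A B) (b : Arrow B D) (c : Arrow A D)
    (h : ∀ x, b.f (a.f x) = c.f x) (t : Ω ⊗[ℚ] A.M) : b.ten (a.ten t) = c.ten t := by
  induction t using TensorProduct.induction_on with
  | zero => simp only [map_zero]
  | tmul s x =>
    change s ⊗ₜ[ℚ] b.f (a.f x) = s ⊗ₜ[ℚ] c.f x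
    rw [h]
  | add x y hx hy => rw [map_add, map_add, map_add, hx, hy]

theorem ten_comm {A B C D : Node Ω} (a : Arrow A B) (b : Arrow B D) (c : Arrow A C) (d : Arrow C D)
    (h : ∀ x, b.f (a.f x) = d.f (c.f x)) (t : Ω ⊗[ℚ] A.M) : b.ten (a.ten t) = d.ten (c.ten t) := by
  induction t using TensorProduct.induction_on with
  | zero => simp only [map_zero]
  | tmul s x =>
    change s ⊗ₜ[ℚ] b.f (a.f x) = s ⊗ₜ[ℚ] d.f (c.f x)
    rw [h]
  | add x y hx hy => rw [map_add, map_add, map_add, map_add, hx, hy]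

variable {T : Homology Ω V} (hT : IsHomology T)

theorem frob_iff (A : V) (n k : ℤ) (x : T.E A n k) :
    T.frob A n k x = x ↔ (node T hT A n k).φ x = x := by
  have h : (node T hT A n k).φ x = T.frob A n k x := (hT.lin A n k).map_apply x
  exact ⟨fun h' => h.trans h', fun h' => h.symm.trans h'⟩

theorem ontoAt_iff (A : V) (n k : ℤ) : OntoAt T A n k ↔ (node T hT A n k).Onto := by
  rw [Node.onto_iff]
  have h3 : ∀ e, (hT.lin A n k).map e = T.frob A n k e := (hT.lin A n k).map_apply
  refine and_congr (forall_congr' fun e => ?_) (forall_congr' fun e => ?_)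
  · rw [← h3]
    exact Iff.rfl
  · rw [← h3 (T.frob A n k e - e), ← h3 e]
    exact Iff.rfl

theorem injAt_iff (A : V) (n k : ℤ) : InjAt T A n k ↔ Function.Injective (node T hT A n k).lam := by
  rw [inj_iff]
  exact Iff.rfl

theorem noInv_noG {A : V} {n k : ℤ} (h : NoInv T A n k) : NoG (node T hT A n k) :=
  noG_of fun e he => h e ((frob_iff hT A n k e).2 he)

theorem mem_span_iff (A : V) (n k : ℤ) (x : T.E A n k) :
    x ∈ Submodule.span Ω (Set.range (T.reg A n k)) ↔ ∃ t, (node T hT A n k).lam t = x :=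
  (node T hT A n k).mem_span x

theorem zero_inj {A : V} {n k : ℤ} (h : ∀ m : T.M A n k, m = 0) :
    Function.Injective (node T hT A n k).lam := by
  rw [← injAt_iff hT]
  intro r x hx
  have hr : IsEmpty (Fin r) := ⟨fun l => hx.ne_zero l (h _)⟩
  exact linearIndependent_empty_type

omit hT in
theorem good_point (A : Node Ω) (c : A.M) (hc : A.ρ c ≠ 0) (hM : ∀ x : A.M, ∃ a : ℚ, x = a • c)
    (hE : ∀ x : A.E, ∃ a : Ω, x = a • A.ρ c) : A.Good := by
  have h1 : ∀ t : Ω ⊗[ℚ] A.M, ∃ a : Ω, t = a ⊗ₜ[ℚ] c := by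
    intro t
    induction t using TensorProduct.induction_on with
    | zero => exact ⟨0, (TensorProduct.zero_tmul _ _).symm⟩
    | tmul s x =>
      obtain ⟨a, rfl⟩ := hM x
      exact ⟨a • s, (TensorProduct.smul_tmul _ _ _).symm⟩
    | add x y hx hy =>
      obtain ⟨a, rfl⟩ := hx
      obtain ⟨b, rfl⟩ := hy
      exact ⟨a + b, (TensorProduct.add_tmul _ _ _).symm⟩
  constructor
  · rw [injective_iff_map_eq_zero]
    intro t ht
    obtain ⟨a, rfl⟩ := h1 t
    rw [Node.lam_tmul] at ht
    rcases smul_eq_zero.1 ht with h2 | h2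
    · rw [h2, TensorProduct.zero_tmul]
    · exact absurd h2 hc
  · intro e _
    obtain ⟨a, rfl⟩ := hE e
    exact ⟨a ⊗ₜ c, Node.lam_tmul _ _ _⟩

omit hT in
theorem good_scalar (A : Node Ω) (hM : ∀ x : A.M, x = 0) (u : Ω) (hu : u ≠ 1)
    (hf : ∀ x, A.φ x = u • x) : A.Good := by
  refine Node.good_of_zero A hM fun e he => ?_
  have h2 : (u - 1) • e = 0 := by
    rw [sub_smul, one_smul, ← hf e, he, sub_self]
  exact (smul_eq_zero.1 h2).resolve_left (sub_ne_zero.2 hu)

include hT in
/-- The spectrum of the base field. -/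
theorem tb_point {A : V} (h : IsPoint T A) : TB T A := by
  rw [tb_iff T hT]
  intro n k
  by_cases hn : n = 0
  · subst hn
    by_cases hk : k = 0
    · subst hk
      obtain ⟨c, hc, hM, hE⟩ := h.unit
      exact good_point (node T hT A 0 0) c hc hM hE
    · obtain ⟨u, hu, hf⟩ := h.frob k hk
      exact good_scalar (node T hT A 0 k) (h.motivic 0 k (Or.inr hk)) u hu fun x =>
        ((hT.lin A 0 k).map_apply x).trans (hf x)
  · exact Node.good_of_zero _ (h.motivic n k (Or.inl hn)) fun e _ => h.coh n k hn e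

end

end Pool.Agent.K6.H28.FF
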