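import Pool.Agent.K6.H28.FF.Strata

/-!
# From the generic point of `X` to the generic points of its divisors
-/

set_option autoImplicit false
set_option linter.unusedSectionVars false
set_option linter.unusedVariables false

namespace Pool.Agent.K6.H28.FF

open Module Pool.Agent.W495.FM
open scoped TensorProduct

noncomputable section

variable {Ω : Type} [Field Ω] [CharZero Ω] {V : Type} {T : Homology Ω V} (hT : IsHomology T)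
  {S : Strata T} (hS : IsStrata S)

include hS

/-- The residue argument: if the kernel of the push-forward from the closed subsets to `X` is motivic
then all invariant classes at the generic points of codimension one are motivic. -/
theorem down {X Z : S.C} {d m k : ℤ} (h0 : 0 ≤ d) (hX : S.dim X ≤ d + 1) (hZX : Z ≤ X)
    (hZ : S.dim Z ≤ d) (hn : m + 1 < (d + 1) + k)
    (hC : ∀ C, C ≤ X → S.dim C < d → (nc hT S C m k).Onto)
    (hI : Function.Injective (nc hT S X m k).lam) (hO : (nc hT S X (m + 1) k).Onto)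
    (hK : ∀ B : S.C, S.dim B < d + 1 → ∀ w : (nc hT S (X ⊓ B) (m + 1) k).E,
      (nc hT S (X ⊓ B) (m + 1) k).InG w →
      (∃ C, S.dim C < d ∧ (no hT S (X ⊓ B) C (m + 1) k).φ ((aJ hT (X ⊓ B) C (m + 1) k).g w) =
        (aJ hT (X ⊓ B) C (m + 1) k).g w) →
      (aInc hT (inf_le_left : X ⊓ B ≤ X) (m + 1) k).g w = 0 → Bounds hT X (d + 1) (m + 1) k w) :
    Gen S Z d (m + 1) k := by
  refine gen_intro hT hS fun C₀ hC₀ w hw => ?_
  -- the residue of `w` is motivic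
  obtain ⟨r, hr⟩ := hC _ (inf_le_left.trans hZX) (dim_inf hS hC₀) ((aDel hT Z C₀ m k).g w)
    ((aDel hT Z C₀ m k).inG (inG_of_inv hw))
  have hres0 : (aInc hT (inf_le_left : Z ⊓ C₀ ≤ Z) m k).g ((aDel hT Z C₀ m k).g w) = 0 :=
    (ex_del_inc hT hS Z C₀ m k _).2 ⟨w, rfl⟩
  have hZC : Z ⊓ C₀ ≤ X ⊓ Z := le_inf (inf_le_left.trans hZX) inf_le_left
  have hZCX : Z ⊓ C₀ ≤ X := inf_le_left.trans hZX
  have h1 : (aInc hT hZCX m k).ten r = 0 := by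
    apply hI
    rw [Arrow.lam_ten, hr, map_zero]
    exact (comp_g hT (hS.inc_inc (inf_le_left : Z ⊓ C₀ ≤ Z) hZX hZCX m k) _).symm.trans
      ((congrArg _ hres0).trans (map_zero _))
  have h2 : (aInc hT (inf_le_left : X ⊓ Z ≤ X) m k).ten ((aInc hT hZC m k).ten r) = 0 := by
    rw [comp_t hT (hS.inc_inc hZC (inf_le_left : X ⊓ Z ≤ X) hZCX m k), h1]
  obtain ⟨B₁, hB₁, hB₁d, h3⟩ := dies hT hS hX hn (lt_of_le_of_lt hZ (by omega)) _ h2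
  have hZ₁ : Z ≤ X ⊓ B₁ := le_inf hZX hB₁
  have hZC₁ : Z ⊓ C₀ ≤ X ⊓ B₁ := inf_le_left.trans hZ₁
  rw [comp_t hT (hS.inc_inc hZC (inf_le_inf_left X hB₁) hZC₁ m k)] at h3
  -- it is the residue of a motivic class
  have h4 : (aInc hT (inf_le_left : X ⊓ B₁ ⊓ C₀ ≤ X ⊓ B₁) m k).ten
      ((aInc hT (inf_le_inf_right C₀ hZ₁) m k).ten r) = 0 := by
    rw [comp_t hT (hS.inc_inc (inf_le_inf_right C₀ hZ₁) (inf_le_left : X ⊓ B₁ ⊓ C₀ ≤ X ⊓ B₁)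
      hZC₁ m k), h3]
  obtain ⟨v, hv⟩ := (ex_del_inc' hT hS (X ⊓ B₁) C₀ m k _).1 h4
  have hpush := comm_g hT (hS.del_push hZ₁ C₀ m k) w
  have h5 : (aDel hT (X ⊓ B₁) C₀ m k).g ((aPush hT hZ₁ C₀ (m + 1) k).g w -
      (no hT S (X ⊓ B₁) C₀ (m + 1) k).lam v) = 0 := by
    rw [map_sub, hpush, ← Arrow.lam_ten, hv, Arrow.lam_ten, hr, sub_self]
  have hw'G : (no hT S (X ⊓ B₁) C₀ (m + 1) k).InG ((aPush hT hZ₁ C₀ (m + 1) k).g w -
      (no hT S (X ⊓ B₁) C₀ (m + 1) k).lam v) :=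
    inG_sub ((aPush hT hZ₁ C₀ (m + 1) k).inG (inG_of_inv hw)) (Node.inG_lam _ v)
  obtain ⟨w₁, hw₁, hw₁'⟩ := Arrow.fitting _ _ (ex_j_del hT hS (X ⊓ B₁) C₀ m k) _ hw'G h5
  -- adjust the image in `X`
  obtain ⟨x, hx⟩ := hO _ ((aInc hT (inf_le_left : X ⊓ B₁ ≤ X) (m + 1) k).inG hw₁)
  obtain ⟨B₂, hB₂, hB₂d, z, hz⟩ := support hT hS (by omega) hX hn hB₁d x
  have hinc₁₂ := comp_g hT (hS.inc_inc (inf_le_inf_left X hB₂) (inf_le_left : X ⊓ B₂ ≤ X)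
    (inf_le_left : X ⊓ B₁ ≤ X) (m + 1) k) w₁
  have hj₁₂ := comm_g hT (hS.j_push (inf_le_inf_left X hB₂) C₀ (m + 1) k) w₁
  have hkey : ((aJ hT (X ⊓ B₂) C₀ (m + 1) k).g ((aInc hT (inf_le_inf_left X hB₂) (m + 1) k).g w₁ -
      (nc hT S (X ⊓ B₂) (m + 1) k).lam z)) =
      (aPush hT (inf_le_inf_left X hB₂) C₀ (m + 1) k).g ((aPush hT hZ₁ C₀ (m + 1) k).g w) -
        (no hT S (X ⊓ B₂) C₀ (m + 1) k).lam
          ((aPush hT (inf_le_inf_left X hB₂) C₀ (m + 1) k).ten v +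
            (aJ hT (X ⊓ B₂) C₀ (m + 1) k).ten z) := by
    rw [map_sub, ← hj₁₂, hw₁', map_sub, map_add, Arrow.lam_ten, Arrow.lam_ten]
    abel
  obtain ⟨B₃, hB₃, hB₃d, s, hs⟩ := hK B₂ hB₂d
    ((aInc hT (inf_le_inf_left X hB₂) (m + 1) k).g w₁ - (nc hT S (X ⊓ B₂) (m + 1) k).lam z)
    (inG_sub ((aInc hT (inf_le_inf_left X hB₂) (m + 1) k).inG hw₁) (Node.inG_lam _ z))
    ⟨C₀, hC₀, by
      rw [hkey, map_sub, Node.φ_lam, Arrow.frob, Arrow.frob, hw]⟩ (by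
      rw [map_sub, hinc₁₂, ← Arrow.lam_ten, hz, hx, sub_self])
  -- the push-forward of `w` is motivic
  have hZ₃ : Z ≤ X ⊓ B₃ := le_inf hZX ((hB₁.trans hB₂).trans hB₃)
  have hj₂₃ := comm_g hT (hS.j_push (inf_le_inf_left X hB₃) C₀ (m + 1) k)
    ((aInc hT (inf_le_inf_left X hB₂) (m + 1) k).g w₁ - (nc hT S (X ⊓ B₂) (m + 1) k).lam z)
  rw [hkey, hs, map_sub,
    comp_g hT (hS.push_push hZ₁ (inf_le_inf_left X hB₂)
      (hZ₁.trans (inf_le_inf_left X hB₂)) C₀ (m + 1) k) w,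
    comp_g hT (hS.push_push (hZ₁.trans (inf_le_inf_left X hB₂)) (inf_le_inf_left X hB₃)
      hZ₃ C₀ (m + 1) k) w, sub_eq_iff_eq_add, ← Arrow.lam_ten, ← Arrow.lam_ten,
    ← map_add] at hj₂₃
  -- the component
  obtain ⟨C₁, hC₁, hC₁d, hρ⟩ := hS.split hZ₃ C₀ d
    ((hS.dim_mono inf_le_right).trans (Int.le_of_lt_add_one hB₃d)) hC₀
  obtain ⟨ρ, hρ⟩ := hρ (m + 1) k
  have hpr := comm_g hT (hS.push_res hZ₃ hC₁ (m + 1) k) w
  have hρ' : (ρ.arr hT).g ((aPush hT hZ₃ C₁ (m + 1) k).g ((aRes hT Z hC₁ (m + 1) k).g w)) =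
      (aRes hT Z hC₁ (m + 1) k).g w :=
    (arr_g hT _ _).trans ((congrArg _ (arr_g hT _ _)).trans (hρ _))
  obtain ⟨y, hy⟩ : ∃ y, (no hT S (X ⊓ B₃) C₀ (m + 1) k).lam y =
      (aPush hT hZ₃ C₀ (m + 1) k).g w := ⟨_, hj₂₃.symm⟩
  refine ⟨C₁, hC₁, hC₁d, (ρ.arr hT).ten ((aRes hT (X ⊓ B₃) hC₁ (m + 1) k).ten y), ?_⟩
  rw [Arrow.lam_ten, Arrow.lam_ten, hy, hpr, hρ']

end

end Pool.Agent.K6.H28.FF
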