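import Pool.Agent.K6.H28.FF.Main

/-!
# Q1 in small degrees and in small twists
-/

set_option autoImplicit false
set_option linter.unusedSectionVars false
set_option linter.unusedVariables false

namespace Pool.Agent.K6.H28.FF

open Module Pool.Agent.W495.FM
open scoped TensorProduct

noncomputable section

variable {Ω : Type} [Field Ω] [CharZero Ω] {V : Type} {T : Homology Ω V} (hT : IsHomology T)
  (hW : HasWeights T) {S : Strata T} (hS : IsStrata S)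

include hT hW hS

/-- The degrees `i ≤ 2`. -/
theorem le_two_iff {A : S.C} {d : ℤ} (hA : S.dim A ≤ d) :
    (∀ i j : ℤ, i ≤ 2 → Q1 S A d i j) ↔ Q1 S A d 2 1 ∧ Q1 S A d 2 2 := by
  constructor
  · exact fun h => ⟨h 2 1 le_rfl, h 2 2 le_rfl⟩
  · rintro ⟨h1, h2⟩ i j hi
    have h3 : i < j ∨ 2 * j < i ∨ (i = 0 ∧ j = 0) ∨ (i = 1 ∧ j = 1) ∨ (i = 2 ∧ j = 1) ∨
        (i = 2 ∧ j = 2) := by omega
    rcases h3 with h | h | ⟨h, h'⟩ | ⟨h, h'⟩ | ⟨rfl, rfl⟩ | ⟨rfl, rfl⟩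
    · exact q1_lt hT hS hA h
    · exact q1_gt hT hW hS h
    · exact q1_zero hT hS hA h h'
    · exact q1_one hT hS hA h h'
    · exact h1
    · exact h2

/-- The twists `j ≤ 2`. -/
theorem twist_two_iff {A : S.C} {d : ℤ} (hA : S.dim A ≤ d) :
    (∀ i j : ℤ, j ≤ 2 → Q1 S A d i j) ↔
      (Q1 S A d 2 1 ∧ Q1 S A d 2 2) ∧ Q1 S A d 3 2 ∧ Q1 S A d 4 2 := by
  constructor
  · exact fun h => ⟨⟨h 2 1 (by norm_num), h 2 2 le_rfl⟩, h 3 2 le_rfl, h 4 2 le_rfl⟩
  · rintro ⟨h1, h2, h3⟩ i j hj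
    have h4 : i ≤ 2 ∨ 2 * j < i ∨ (i = 3 ∧ j = 2) ∨ (i = 4 ∧ j = 2) := by omega
    rcases h4 with h | h | ⟨rfl, rfl⟩ | ⟨rfl, rfl⟩
    · exact (le_two_iff hT hW hS hA).2 h1 i j h
    · exact q1_gt hT hW hS h
    · exact h2
    · exact h3

/-- Smooth projective varieties. -/
theorem pure_all {A : S.C} {d : ℤ} (h0 : 0 ≤ d) (hA : S.dim A ≤ d) (hP : Pure T (S.cl A)) :
    (Q1 S A d 2 1 ↔ TateDivisors T (S.cl A) d) ∧ (Q1 S A d 2 2 ↔ ParshinCodimTwo T (S.cl A) d) ∧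
      ((∀ C, C ≤ A → S.dim C < d → (nc hT S C (2 * d - 4) (d - 2)).Onto) →
        (Q1 S A d 3 2 ↔ BeilinsonCodimTwo T (S.cl A) d) ∧
          (Q1 S A d 4 2 ↔ TateCodimTwo T (S.cl A) d)) := by
  refine ⟨q1_two_one hT hW hS h0 hA, q1_two_two_iff hT hS h0 hA hP, fun hC => ⟨?_, ?_⟩⟩
  · rw [q1_pure_three_two hT hS h0 hA hP hC, ← injAt_iff hT]
    exact Iff.rfl
  · rw [q1_four_two hT hS hW h0 hA hC, ← ontoAt_iff hT]
    exact Iff.rfl

/-- The unconditional degrees for varieties that satisfy the conjecture of Tate and Beilinson. -/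
theorem tb_known {X : S.C} {d : ℤ} (hX : S.dim X ≤ d + 1) (hTB : TB T (S.cl X)) {i j : ℤ}
    (h : i < j ∨ 2 * j ≤ i ∨ (i = 1 ∧ j = 1) ∨ (i = 2 ∧ j = 2)) : Q1 S X (d + 1) i j := by
  have hg := (tb_iff T hT _).1 hTB
  rcases h with h | h | ⟨h, h'⟩ | ⟨rfl, rfl⟩
  · exact q1_lt hT hS hX h
  · rcases lt_or_eq_of_le h with h | h
    · exact q1_gt hT hW hS h
    · exact q1_cycles hT hS hW h.symm (hg _ _).2
  · exact q1_one hT hS hX h h'
  · exact q1_two_two hT hS (hg _ _).2 (hg _ _).1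

/-- The degree `(3, 2)`. -/
theorem tb_three_two {X : S.C} {d : ℤ} (h0 : 0 ≤ d) (hX : S.dim X ≤ d + 1)
    (hTB : TB T (S.cl X)) : Q1 S X (d + 1) 3 2 ↔ Q1Closed S X d 2 1 := by
  have hg := (tb_iff T hT _).1 hTB
  exact ⟨fun h => q1_three_two_down hT hW hS h0 hX (hg _ _).2 h,
    fun h => q1_three_two_up hT hW hS h0 (hg _ _).2 (hg _ _).1 h⟩

/-- The surjectivity of the cycle class maps suffices. -/
theorem tb_three_two_weak {X : S.C} {d : ℤ} (hTB : TB T (S.cl X))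
    (h : ∀ Z : S.C, Z ≤ X → S.dim Z ≤ d → ∀ x : T.E (S.cl Z) (2 * d - 2) (d - 1),
      T.frob _ _ _ x = x → x ∈ Submodule.span Ω (Set.range (T.reg (S.cl Z) _ _))) :
    Q1 S X (d + 1) 3 2 := by
  have hg := (tb_iff T hT _).1 hTB
  have e1 : 2 * (d + 1) - 3 = 2 * d - 1 := by ring
  have e2 : d + 1 - 2 = d - 1 := by ring
  unfold Q1
  rw [e1, e2]
  exact closed_up hT hS (m := 2 * d - 2) (by ring) (hg _ _).2 (hg _ _).1 fun Z hZX hZ w hw =>
    (mem_span_iff hT _ _ _ _).1 (h Z hZX (Int.le_of_lt_add_one hZ) w ((frob_iff hT _ _ _ w).2 hw))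

/-- The degree `(3, 3)`. -/
theorem tb_three_three {X : S.C} {d : ℤ} (h0 : 0 ≤ d) (hX : S.dim X ≤ d + 1)
    (hTB : TB T (S.cl X)) (hP : Pure T (S.cl X)) :
    Q1 S X (d + 1) 3 3 ↔ Q1Closed S X d 2 2 := by
  have hg := (tb_iff T hT _).1 hTB
  exact ⟨fun h => q1_three_three_down hT hS h0 hX (noInv_noG hT (hP _ _ (by omega)))
      (hg _ _).2 (hg _ _).1 h,
    fun h => q1_three_three_up hT hS h0 (hg _ _).2 (hg _ _).1 h⟩

/-- The twists `j ≤ 2`. -/
theorem tb_twists {X : S.C} {d : ℤ} (h0 : 0 ≤ d) (hX : S.dim X ≤ d + 1)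
    (hTB : TB T (S.cl X)) : (∀ i j : ℤ, j ≤ 2 → Q1 S X (d + 1) i j) ↔ Q1Closed S X d 2 1 := by
  rw [← tb_three_two hT hW hS h0 hX hTB]
  constructor
  · exact fun h => h 3 2 le_rfl
  · intro h i j hj
    by_cases h2 : i = 3 ∧ j = 2
    · obtain ⟨rfl, rfl⟩ := h2
      exact h
    · exact tb_known hT hW hS hX hTB (by omega)

/-- The degrees `i ≤ 3`. -/
theorem tb_three {X : S.C} {d : ℤ} (h0 : 0 ≤ d) (hX : S.dim X ≤ d + 1)
    (hTB : TB T (S.cl X)) (hP : Pure T (S.cl X)) :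
    (∀ i j : ℤ, i ≤ 3 → Q1 S X (d + 1) i j) ↔ Q1Closed S X d 2 1 ∧ Q1Closed S X d 2 2 := by
  rw [← tb_three_two hT hW hS h0 hX hTB, ← tb_three_three hT hW hS h0 hX hTB hP]
  constructor
  · exact fun h => ⟨h 3 2 le_rfl, h 3 3 le_rfl⟩
  · rintro ⟨h1, h2⟩ i j hi
    have h3 : (i < j ∨ 2 * j ≤ i ∨ (i = 1 ∧ j = 1) ∨ (i = 2 ∧ j = 2)) ∨ (i = 3 ∧ j = 2) ∨
        (i = 3 ∧ j = 3) := by omega
    rcases h3 with h3 | ⟨rfl, rfl⟩ | ⟨rfl, rfl⟩
    · exact tb_known hT hW hS hX hTB h3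
    · exact h1
    · exact h2

/-- The residue principle in all degrees. -/
theorem residues {X : S.C} {d : ℤ} (h0 : 0 ≤ d) (hX : S.dim X ≤ d + 1)
    (hTB : TB T (S.cl X)) (hP : Pure T (S.cl X))
    (hC : ∀ C, C ≤ X → S.dim C ≤ d - 1 → TB T (S.cl C)) {i j : ℤ} (hj : 1 ≤ j) :
    Q1 S X (d + 1) i j ↔ Q1Closed S X d (i - 1) (j - 1) := by
  have hg := (tb_iff T hT _).1 hTB
  have hg' : ∀ C, C ≤ X → S.dim C < d → ∀ n k, (nc hT S C n k).Good := fun C hCX hCd =>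
    (tb_iff T hT _).1 (hC C hCX (Int.le_sub_one_of_lt hCd))
  rcases lt_or_ge i j with hij | hij
  · exact iff_of_true (q1_lt hT hS hX hij) fun Z _ hZ => q1_lt hT hS hZ (by omega)
  have e1 : 2 * (d + 1) - i = 2 * d + 2 - i := by ring
  have e2 : d + 1 - j = d + 1 - j := rfl
  have e3 : 2 * d - (i - 1) = 2 * d + 1 - i := by ring
  have e4 : d - (j - 1) = d + 1 - j := by ring
  unfold Q1Closed Q1
  rw [e1, e3, e4]
  constructor
  · intro h Z hZX hZ
    rcases lt_or_eq_of_le hij with hlt | heq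
    · exact down₁ hT hS h0 hX hZX hZ (m := 2 * d - i) (by ring) (by ring) (by omega) h
        (fun C hCX hCd => (hg' C hCX hCd _ _).2) (hg _ _).1 (hg _ _).2
    · exact down₂ hT hS h0 hX hZX hZ (m := 2 * d - i) (by ring) (by ring) (by omega)
        (noInv_noG hT (hP _ _ (by omega)))
        (fun C _ hCd => cW hT hS (Int.le_sub_one_of_lt hCd) (by omega)) h
        (fun C hCX hCd => (hg' C hCX hCd _ _).2) (hg _ _).1 (hg _ _).2
  · intro h
    exact up hT hS h0 (m := 2 * d - i) (by ring) (by ring) (hg _ _).2 (hg _ _).1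
      (fun C hCX hCd => (hg' C hCX hCd _ _).2) (fun C hCX hCd => (hg' C hCX hCd _ _).1) h

omit hW in
/-- Descent to dominated varieties. -/
theorem gen_dominates {S' : Strata T} (hS' : IsStrata S') {Y : S'.C} {Z : S.C} {d' d r n k : ℤ}
    (hD : Dominates S' Y d' S Z d r) (hG : Gen S' Y d' (n + 2 * r) (k + r)) : Gen S Z d n k := by
  refine gen_intro hT hS fun B hB x hx => ?_
  obtain ⟨B', hB', hD⟩ := hD B hB
  obtain ⟨α, hD⟩ := hD n k
  obtain ⟨B'', h, hB'', t, ht⟩ := gen_apply hT hS' hG hB' ((α.arr hT).g x) (by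
    rw [Arrow.frob, hx])
  obtain ⟨B₁, h₁, hB₁, β, hβ⟩ := hD B'' h hB''
  refine ⟨B₁, h₁, hB₁, (β.arr hT).ten t, ?_⟩
  rw [Arrow.lam_ten, ht]
  exact (arr_g hT _ _).trans ((congrArg _ ((arr_g hT _ _).trans (congrArg _ (arr_g hT _ _)))).trans
    ((hβ x).trans (arr_g hT _ _).symm))

omit hW in
theorem q1_dominates {S' : Strata T} (hS' : IsStrata S') {Y : S'.C} {Z : S.C} {d' d r i j : ℤ}
    (hr : d' = d + r) (hD : Dominates S' Y d' S Z d r) (h : Q1 S' Y d' i j) : Q1 S Z d i j := by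
  have e1 : 2 * d' - i = (2 * d - i) + 2 * r := by rw [hr]; ring
  have e2 : d' - j = (d - j) + r := by rw [hr]; ring
  unfold Q1 at h
  rw [e1, e2] at h
  exact gen_dominates hT hS hS' hD h

/-- Q1 on the closed subvarieties and on the smooth projective models. -/
theorem models {X : S.C} {d : ℤ} {I : Type} {S' : I → Strata T} {Y : ∀ t, (S' t).C}
    (hM : IsModels S X d S' Y) (i j : ℤ) :
    Q1Closed S X d i j ↔ ∀ t, Q1 (S' t) (Y t) d i j := by
  constructor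
  · intro h t
    obtain ⟨Z, hZX, hZ, hD⟩ := hM.dominated t
    exact q1_dominates hT (hM.strata t) hS (by ring) hD (h Z hZX hZ)
  · intro h Z hZX hZ
    obtain ⟨t, hD⟩ := hM.dominates Z hZX hZ
    exact q1_dominates hT hS (hM.strata t) (by ring) hD (h t)

/-- Divisors on closed subschemes of codimension two. -/
theorem onto_closed {X : S.C} {d : ℤ} (h1 : 1 ≤ d) {I : Type} {S' : I → Strata T}
    {Y : ∀ t, (S' t).C} (hM : IsModels S X d S' Y) (h : ∀ t, Q1 (S' t) (Y t) d 2 1) :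
    (∀ C, C ≤ X → S.dim C < d → (nc hT S C (2 * d - 4) (d - 2)).Onto) ∧
      ∀ (t : I) (C : (S' t).C), C ≤ Y t → (S' t).dim C < d →
        (nc hT (S' t) C (2 * d - 4) (d - 2)).Onto := by
  have e1 : 2 * (d - 1) - 2 = 2 * d - 4 := by ring
  have e2 : d - 1 - 1 = d - 2 := by ring
  constructor
  · intro C hC hCd
    obtain ⟨t, hD⟩ := hM.closed C hC (Int.le_sub_one_of_lt hCd)
    have h2 := (q1_two_one hT hW hS (by omega) (Int.le_sub_one_of_lt hCd)).1
      (q1_dominates hT hS (hM.strata t) (by ring) hD (h t))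
    rw [e1, e2, ontoAt_iff hT] at h2
    exact h2
  · intro t C hC hCd
    obtain ⟨t', hD⟩ := hM.closed' t C hC (Int.le_sub_one_of_lt hCd)
    have h2 := (q1_two_one hT hW (hM.strata t) (by omega) (Int.le_sub_one_of_lt hCd)).1
      (q1_dominates hT (hM.strata t) (hM.strata t') (by ring) hD (h t'))
    rw [e1, e2, ontoAt_iff hT] at h2
    exact h2

/-- The degree `(3, 2)`, in terms of models. -/
theorem models_three_two {X : S.C} {d : ℤ} (h1 : 1 ≤ d) (hX : S.dim X ≤ d + 1)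
    (hTB : TB T (S.cl X)) {I : Type} {S' : I → Strata T}
    {Y : ∀ t, (S' t).C} (hM : IsModels S X d S' Y) :
    Q1 S X (d + 1) 3 2 ↔ ∀ t, TateDivisors T ((S' t).cl (Y t)) d := by
  rw [tb_three_two hT hW hS (by omega) hX hTB, models hT hW hS hM]
  exact forall_congr' fun t => q1_two_one hT hW (hM.strata t) (by omega) (hM.dim_le t)

/-- The degree `(3, 3)`, in terms of models. -/
theorem models_three_three {X : S.C} {d : ℤ} (h1 : 1 ≤ d) (hX : S.dim X ≤ d + 1)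
    (hTB : TB T (S.cl X)) (hP : Pure T (S.cl X)) {I : Type} {S' : I → Strata T}
    {Y : ∀ t, (S' t).C} (hM : IsModels S X d S' Y) :
    Q1 S X (d + 1) 3 3 ↔ ∀ t, ParshinCodimTwo T ((S' t).cl (Y t)) d := by
  rw [tb_three_three hT hW hS (by omega) hX hTB hP, models hT hW hS hM]
  exact forall_congr' fun t =>
    q1_two_two_iff hT (hM.strata t) (by omega) (hM.dim_le t) (hM.pure t)

/-- The degrees `(4, 3)` and `(5, 3)`, in terms of models. -/
theorem models_twist_three {X : S.C} {d : ℤ} (h1 : 1 ≤ d) (hX : S.dim X ≤ d + 1)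
    (hTB : TB T (S.cl X)) {I : Type} {S' : I → Strata T}
    {Y : ∀ t, (S' t).C} (hM : IsModels S X d S' Y)
    (h : ∀ t, TateDivisors T ((S' t).cl (Y t)) d) :
    (Q1 S X (d + 1) 4 3 ↔ ∀ t, BeilinsonCodimTwo T ((S' t).cl (Y t)) d) ∧
      (Q1 S X (d + 1) 5 3 ↔ ∀ t, TateCodimTwo T ((S' t).cl (Y t)) d) := by
  have hg := (tb_iff T hT _).1 hTB
  obtain ⟨h3, h4⟩ := onto_closed hT hW hS h1 hM fun t =>
    (q1_two_one hT hW (hM.strata t) (by omega) (hM.dim_le t)).2 (h t)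
  have h5 := fun t => (pure_all hT hW (hM.strata t) (by omega) (hM.dim_le t) (hM.pure t)).2.2 (h4 t)
  constructor
  · have h6 : Q1 S X (d + 1) 4 3 ↔ Q1Closed S X d 3 2 :=
      ⟨q1_four_three_down hT hS (by omega) hX h3 (hg _ _).1 (hg _ _).2,
        q1_four_three_up hT hS (by omega) (hg _ _).2 (hg _ _).1⟩
    rw [h6, models hT hW hS hM]
    exact forall_congr' fun t => (h5 t).1
  · have h6 : Q1 S X (d + 1) 5 3 ↔ Q1Closed S X d 4 2 :=
      ⟨q1_five_three_down hT hW hS (by omega) hX (hg _ _).2,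
        q1_five_three_up hT hW hS (by omega) h3 (hg _ _).2 (hg _ _).1⟩
    rw [h6, models hT hW hS hM]
    exact forall_congr' fun t => (h5 t).2

omit hW in
/-- All degrees. -/
theorem all_iff {X : S.C} {e : ℤ} (hX : S.dim X ≤ e) :
    (∀ i j : ℤ, Q1 S X e i j) ↔ ∀ i j : ℤ, i ≤ e → Q1 S X e i j := by
  constructor
  · exact fun h i j _ => h i j
  · intro h i j
    rcases le_or_gt i e with hi | hi
    · exact h i j hi
    · exact q1_affine hT hS hX hi

end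

end Pool.Agent.K6.H28.FF
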