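import Pool.Agent.K6.H28.FF.Down

/-!
# Q1 in small degrees
-/

set_option autoImplicit false
set_option linter.unusedSectionVars false
set_option linter.unusedVariables false

namespace Pool.Agent.K6.H28.FF

open Module Pool.Agent.W495.FM
open scoped TensorProduct

noncomputable section

variable {Ω : Type} [Field Ω] [CharZero Ω] {V : Type} {T : Homology Ω V} (hT : IsHomology T)
  (hW : HasWeights T) {S : Strata T} (hS : IsStrata S)

/-! ### The facts on nodes -/

include hS in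
theorem cTop {C : S.C} {c n k : ℤ} (hC : S.dim C ≤ c) (hn : n = 2 * c) (hk : k = c) :
    (nc hT S C n k).Onto ∧ Function.Injective (nc hT S C n k).lam := by
  subst hn hk
  exact ⟨(ontoAt_iff hT _ _ _).1 (hS.cl_facts C _ hC).top.1,
    (injAt_iff hT _ _ _).1 (hS.cl_facts C _ hC).top.2⟩

include hS in
theorem cUnits {C : S.C} {c n k : ℤ} (hC : S.dim C ≤ c) (hn : n = 2 * c - 1) (hk : k = c - 1) :
    (nc hT S C n k).Onto ∧ Function.Injective (nc hT S C n k).lam := by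
  subst hn hk
  exact ⟨(ontoAt_iff hT _ _ _).1 (hS.cl_facts C _ hC).units.1,
    (injAt_iff hT _ _ _).1 (hS.cl_facts C _ hC).units.2⟩

include hS in
theorem cDiv {C : S.C} {c n k : ℤ} (hC : S.dim C ≤ c) (hn : n = 2 * c - 2) (hk : k = c - 1) :
    Function.Injective (nc hT S C n k).lam := by
  subst hn hk
  exact (injAt_iff hT _ _ _).1 (hS.cl_facts C _ hC).divisors

include hS in
theorem cW {C : S.C} {c n k : ℤ} (hC : S.dim C ≤ c) (hn : c + k < n) : NoG (nc hT S C n k) :=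
  noInv_noG hT ((hS.cl_facts C _ hC).weights n k hn)

include hW in
theorem cLow (C : S.C) {n k : ℤ} (hn : n < 2 * k) :
    (nc hT S C n k).Onto ∧ Function.Injective (nc hT S C n k).lam :=
  ⟨(good_below hT hW _ hn).2, (good_below hT hW _ hn).1⟩

include hW in
theorem cLowG (C : S.C) {n k : ℤ} (hn : n < 2 * k) : NoG (nc hT S C n k) :=
  noInv_noG hT (hW.weights _ n k hn)

/-! ### Versions with free indices -/

include hS

theorem gen_of_onto {A : S.C} {d n k : ℤ} (h : ∀ B, S.dim B < d → (no hT S A B n k).Onto) :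
    Gen S A d n k := by
  refine gen_intro hT hS fun B hB x hx => ?_
  obtain ⟨t, ht⟩ := h B hB x (inG_of_inv hx)
  exact ⟨B, le_rfl, hB, (aRes hT A (le_refl B) n k).ten t, by rw [Arrow.lam_ten, ht]⟩

theorem closed_up {X : S.C} {e n m k : ℤ} (hnm : n = m + 1) (hO : (nc hT S X n k).Onto)
    (hI : Function.Injective (nc hT S X m k).lam)
    (hZ : ∀ Z, Z ≤ X → S.dim Z < e → ∀ w : (nc hT S Z m k).E, (nc hT S Z m k).φ w = w →
      ∃ t, (nc hT S Z m k).lam t = w) : Gen S X e n k := by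
  subst hnm
  exact gen_of_closed hT hS hO hI hZ

/-- From Q1 on the closed subvarieties to Q1 on `X`. -/
theorem up {X : S.C} {d n l m k : ℤ} (h0 : 0 ≤ d) (hnl : n = l + 1) (hlm : l = m + 1)
    (hO : (nc hT S X n k).Onto) (hI : Function.Injective (nc hT S X l k).lam)
    (hCO : ∀ C, C ≤ X → S.dim C < d → (nc hT S C l k).Onto)
    (hCI : ∀ C, C ≤ X → S.dim C < d → Function.Injective (nc hT S C m k).lam)
    (hZ : ∀ Z, Z ≤ X → S.dim Z ≤ d → Gen S Z d l k) : Gen S X (d + 1) n k := by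
  subst hlm
  exact closed_up hT hS hnl hO hI fun Z hZX hZd w hw =>
    lift_mot hT hS h0 (hZ Z hZX (Int.le_of_lt_add_one hZd))
      (fun C hC => hCO C (hC.trans hZX)) (fun C hC => hCI C (hC.trans hZX)) w hw

theorem inj₁ {X : S.C} {e n m k : ℤ} (he : 0 ≤ e) (hX : S.dim X ≤ e) (hnm : n = m + 1)
    (hn : n < e + k) (hG : Gen S X e n k)
    (hI : ∀ Z, Z ≤ X → S.dim Z < e → Function.Injective (nc hT S Z m k).lam) :
    Function.Injective (nc hT S X m k).lam := by
  subst hnm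
  exact inj_of_gen hT hS he hX (by omega) (fun B hB w hw hw' =>
    kernel₁ hT hS hX hn hG hB w (inG_of_inv hw) hw') hI

theorem inj₂ {X : S.C} {e n m k : ℤ} (he : 0 ≤ e) (hX : S.dim X ≤ e) (hnm : n = m + 1)
    (hm : m < e + k) (hN : NoG (nc hT S X n k)) (hG : Gen S X e n k)
    (hI : ∀ Z, Z ≤ X → S.dim Z < e → Function.Injective (nc hT S Z m k).lam) :
    Function.Injective (nc hT S X m k).lam := by
  subst hnm
  exact inj_of_gen hT hS he hX hm (fun B hB w hw hw' => kernel₂ hT hS hN hG hB w hw hw') hI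

theorem down₁ {X Z : S.C} {d n l m k : ℤ} (h0 : 0 ≤ d) (hX : S.dim X ≤ d + 1) (hZX : Z ≤ X)
    (hZ : S.dim Z ≤ d) (hnl : n = l + 1) (hlm : l = m + 1) (hn : n < (d + 1) + k)
    (hG : Gen S X (d + 1) n k) (hC : ∀ C, C ≤ X → S.dim C < d → (nc hT S C m k).Onto)
    (hI : Function.Injective (nc hT S X m k).lam) (hO : (nc hT S X l k).Onto) :
    Gen S Z d l k := by
  subst hnl hlm
  exact down hT hS h0 hX hZX hZ (by omega) hC hI hO fun B hB w hw _ hw' =>
    kernel₁ hT hS hX hn hG hB w hw hw'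

theorem down₂ {X Z : S.C} {d n l m k : ℤ} (h0 : 0 ≤ d) (hX : S.dim X ≤ d + 1) (hZX : Z ≤ X)
    (hZ : S.dim Z ≤ d) (hnl : n = l + 1) (hlm : l = m + 1) (hl : l < (d + 1) + k)
    (hN : NoG (nc hT S X n k)) (hNC : ∀ C, C ≤ X → S.dim C < d → NoG (nc hT S C l k))
    (hG : Gen S X (d + 1) n k) (hC : ∀ C, C ≤ X → S.dim C < d → (nc hT S C m k).Onto)
    (hI : Function.Injective (nc hT S X m k).lam) (hO : (nc hT S X l k).Onto) :
    Gen S Z d l k := by
  subst hnl hlm
  refine down hT hS h0 hX hZX hZ hl hC hI hO fun B hB w hw hinv hw' => ?_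
  obtain ⟨C, hCd, hinv⟩ := hinv
  have h1 : (aJ hT (X ⊓ B) C (m + 1) k).g (((nc hT S (X ⊓ B) (m + 1) k).φ - 1) w) = 0 := by
    rw [← N_arr, N_eq, hinv, sub_self]
  obtain ⟨y, hy, hy'⟩ := Arrow.fitting _ _ (ex_inc_j hT hS (X ⊓ B) C (m + 1) k) _ (inG_N hw) h1
  rw [hNC _ (inf_le_left.trans inf_le_left) (dim_inf hS hCd) y hy, map_zero] at hy'
  have h2 : (nc hT S (X ⊓ B) (m + 1) k).φ w = w := by
    rw [← sub_eq_zero]
    exact hy'.symm
  exact kernel₂ hT hS hN hG hB w h2 hw'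

include hT

/-! ### Simple degrees -/

theorem q1_lt {A : S.C} {d i j : ℤ} (hA : S.dim A ≤ d) (h : i < j) : Q1 S A d i j :=
  gen_of_onto hT hS fun B _ =>
    (noInv_noG hT ((hS.op_facts A B d hA).weights _ _ (by omega))).onto

include hW in
theorem q1_gt {A : S.C} {d i j : ℤ} (h : 2 * j < i) : Q1 S A d i j :=
  gen_of_onto hT hS fun B _ => (noInv_noG hT (hW.weights _ _ _ (by omega))).onto

theorem q1_affine {A : S.C} {d i j : ℤ} (hA : S.dim A ≤ d) (h : d < i) : Q1 S A d i j := by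
  refine gen_intro hT hS fun B hB x _ => ?_
  obtain ⟨B', h', hB', h1⟩ := hS.affine A d (2 * d - i) (d - j) hA (by omega) B hB x
  exact ⟨B', h', hB', 0, (map_zero _).trans ((arr_g hT _ x).trans h1).symm⟩

theorem q1_zero {A : S.C} {d i j : ℤ} (hA : S.dim A ≤ d) (hi : i = 0) (hj : j = 0) :
    Q1 S A d i j := by
  subst hi hj
  have e1 : 2 * d - 0 = 2 * d := by ring
  have e2 : d - 0 = d := by ring
  unfold Q1
  rw [e1, e2]
  exact gen_of_onto hT hS fun B _ => (ontoAt_iff hT _ _ _).1 (hS.op_facts A B d hA).top.1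

theorem q1_one {A : S.C} {d i j : ℤ} (hA : S.dim A ≤ d) (hi : i = 1) (hj : j = 1) :
    Q1 S A d i j := by
  subst hi hj
  exact gen_of_onto hT hS fun B _ => (ontoAt_iff hT _ _ _).1 (hS.op_facts A B d hA).units.1

/-! ### Degree `(2, 1)` -/

include hW in
theorem q1_two_one {A : S.C} {d : ℤ} (h0 : 0 ≤ d) (hA : S.dim A ≤ d) :
    Q1 S A d 2 1 ↔ OntoAt T (S.cl A) (2 * d - 2) (d - 1) := by
  rw [ontoAt_iff hT]
  constructor
  · intro h
    exact onto_of_gen hT hS h0 hA (by omega) h fun C _ hC =>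
      (cTop hT hS (Int.le_sub_one_of_lt hC) (by ring) rfl).1
  · intro h
    exact closed_up hT hS (m := 2 * d - 3) (by ring) h (cLow hT hW A (by omega)).2
      fun Z _ _ w hw => (cLow hT hW Z (by omega)).1 w (inG_of_inv hw)

/-- More generally the degrees `(2 j, j)`. -/
theorem q1_cycles {A : S.C} {d i j : ℤ} (hW : HasWeights T) (hi : i = 2 * j)
    (h : (nc hT S A (2 * d - i) (d - j)).Onto) : Q1 S A d i j :=
  closed_up hT hS (m := 2 * d - i - 1) (by ring) h (cLow hT hW A (by omega)).2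
    fun Z _ _ w hw => (cLow hT hW Z (by omega)).1 w (inG_of_inv hw)

/-! ### Degree `(2, 2)` -/

theorem q1_two_two {A : S.C} {d : ℤ} (hO : (nc hT S A (2 * d - 2) (d - 2)).Onto)
    (hI : Function.Injective (nc hT S A (2 * d - 3) (d - 2)).lam) : Q1 S A d 2 2 :=
  closed_up hT hS (m := 2 * d - 3) (by ring) hO hI fun Z _ hZ w hw =>
    (cUnits hT hS (Int.le_sub_one_of_lt hZ) (by ring) (by ring)).1 w (inG_of_inv hw)

theorem q1_two_two_iff {A : S.C} {d : ℤ} (h0 : 0 ≤ d) (hA : S.dim A ≤ d)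
    (hP : Pure T (S.cl A)) : Q1 S A d 2 2 ↔ ∀ m : T.M (S.cl A) (2 * d - 3) (d - 2), m = 0 := by
  have hN : NoG (nc hT S A (2 * d - 2) (d - 2)) := noInv_noG hT (hP _ _ (by omega))
  constructor
  · intro h m
    have h1 : Function.Injective (nc hT S A (2 * d - 3) (d - 2)).lam :=
      inj₂ hT hS h0 hA (n := 2 * d - 2) (by ring) (by omega) hN h fun Z _ hZ =>
        (cUnits hT hS (Int.le_sub_one_of_lt hZ) (by ring) (by ring)).2
    have h2 := (injAt_iff hT _ _ _).2 h1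
    by_contra hm
    have h3 : LinearIndependent ℚ (fun _ : Fin 1 => m) := LinearIndependent.of_subsingleton 0 hm
    have h4 := (h2 1 _ h3).ne_zero 0
    exact h4 (hP _ _ (by omega) _ (hT.frob_reg _ _ _ m))
  · intro h
    exact q1_two_two hT hS hN.onto (zero_inj hT h)

/-! ### Degree `(3, 2)` -/

include hW in
theorem q1_three_two_down {X : S.C} {d : ℤ} (h0 : 0 ≤ d) (hX : S.dim X ≤ d + 1)
    (hO : (nc hT S X (2 * d - 2) (d - 1)).Onto) (h : Q1 S X (d + 1) 3 2) :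
    Q1Closed S X d 2 1 := by
  intro Z hZX hZ
  have e1 : 2 * (d + 1) - 3 = 2 * d - 1 := by ring
  have e2 : d + 1 - 2 = d - 1 := by ring
  unfold Q1 at h
  rw [e1, e2] at h
  exact down₁ hT hS h0 hX hZX hZ (m := 2 * d - 3) (by ring) (by ring) (by omega) h
    (fun C _ _ => (cLow hT hW C (by omega)).1) (cLow hT hW X (by omega)).2 hO

theorem q1_three_two_inj {X : S.C} {d : ℤ} (h0 : 0 ≤ d) (hX : S.dim X ≤ d + 1)
    (h : Q1 S X (d + 1) 3 2) : Function.Injective (nc hT S X (2 * d - 2) (d - 1)).lam := by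
  have e1 : 2 * (d + 1) - 3 = 2 * d - 1 := by ring
  have e2 : d + 1 - 2 = d - 1 := by ring
  unfold Q1 at h
  rw [e1, e2] at h
  exact inj₁ hT hS (by omega) hX (by ring) (by omega) h fun Z _ hZ =>
    cDiv hT hS (Int.le_of_lt_add_one hZ) rfl rfl

include hW in
theorem q1_three_two_up {X : S.C} {d : ℤ} (h0 : 0 ≤ d)
    (hO : (nc hT S X (2 * d - 1) (d - 1)).Onto)
    (hI : Function.Injective (nc hT S X (2 * d - 2) (d - 1)).lam) (h : Q1Closed S X d 2 1) :
    Q1 S X (d + 1) 3 2 := by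
  have e1 : 2 * (d + 1) - 3 = 2 * d - 1 := by ring
  have e2 : d + 1 - 2 = d - 1 := by ring
  unfold Q1
  rw [e1, e2]
  exact up hT hS h0 (m := 2 * d - 3) (by ring) (by ring) hO hI
    (fun C _ hC => (cTop hT hS (Int.le_sub_one_of_lt hC) (by ring) rfl).1)
    (fun C _ _ => (cLow hT hW C (by omega)).2) fun Z hZX hZ => h Z hZX hZ

/-! ### Degree `(3, 3)` -/

theorem q1_three_three_down {X : S.C} {d : ℤ} (h0 : 0 ≤ d) (hX : S.dim X ≤ d + 1)
    (hN : NoG (nc hT S X (2 * d - 1) (d - 2))) (hO : (nc hT S X (2 * d - 2) (d - 2)).Onto)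
    (hI : Function.Injective (nc hT S X (2 * d - 3) (d - 2)).lam) (h : Q1 S X (d + 1) 3 3) :
    Q1Closed S X d 2 2 := by
  intro Z hZX hZ
  have e1 : 2 * (d + 1) - 3 = 2 * d - 1 := by ring
  have e2 : d + 1 - 3 = d - 2 := by ring
  unfold Q1 at h
  rw [e1, e2] at h
  exact down₂ hT hS h0 hX hZX hZ (m := 2 * d - 3) (by ring) (by ring) (by omega) hN
    (fun C _ hC => cW hT hS (Int.le_sub_one_of_lt hC) (by omega)) h
    (fun C _ hC => (cUnits hT hS (Int.le_sub_one_of_lt hC) (by ring) (by ring)).1) hI hO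

theorem q1_three_three_up {X : S.C} {d : ℤ} (h0 : 0 ≤ d)
    (hO : (nc hT S X (2 * d - 1) (d - 2)).Onto)
    (hI : Function.Injective (nc hT S X (2 * d - 2) (d - 2)).lam) (h : Q1Closed S X d 2 2) :
    Q1 S X (d + 1) 3 3 := by
  have e1 : 2 * (d + 1) - 3 = 2 * d - 1 := by ring
  have e2 : d + 1 - 3 = d - 2 := by ring
  unfold Q1
  rw [e1, e2]
  exact up hT hS h0 (m := 2 * d - 3) (by ring) (by ring) hO hI
    (fun C _ hC => (cW hT hS (Int.le_sub_one_of_lt hC) (by omega)).onto)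
    (fun C _ hC => (cUnits hT hS (Int.le_sub_one_of_lt hC) (by ring) (by ring)).2)
    fun Z hZX hZ => h Z hZX hZ

/-! ### Degree `(4, 3)` -/

theorem q1_four_three_up {X : S.C} {d : ℤ} (h0 : 0 ≤ d)
    (hO : (nc hT S X (2 * d - 2) (d - 2)).Onto)
    (hI : Function.Injective (nc hT S X (2 * d - 3) (d - 2)).lam) (h : Q1Closed S X d 3 2) :
    Q1 S X (d + 1) 4 3 := by
  have e1 : 2 * (d + 1) - 4 = 2 * d - 2 := by ring
  have e2 : d + 1 - 3 = d - 2 := by ring
  unfold Q1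
  rw [e1, e2]
  exact up hT hS h0 (m := 2 * d - 4) (by ring) (by ring) hO hI
    (fun C _ hC => (cUnits hT hS (Int.le_sub_one_of_lt hC) (by ring) (by ring)).1)
    (fun C _ hC => cDiv hT hS (Int.le_sub_one_of_lt hC) (by ring) (by ring))
    fun Z hZX hZ => h Z hZX hZ

theorem q1_four_three_down {X : S.C} {d : ℤ} (h0 : 0 ≤ d) (hX : S.dim X ≤ d + 1)
    (hC : ∀ C, C ≤ X → S.dim C < d → (nc hT S C (2 * d - 4) (d - 2)).Onto)
    (hI : Function.Injective (nc hT S X (2 * d - 4) (d - 2)).lam)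
    (hO : (nc hT S X (2 * d - 3) (d - 2)).Onto) (h : Q1 S X (d + 1) 4 3) :
    Q1Closed S X d 3 2 := by
  intro Z hZX hZ
  have e1 : 2 * (d + 1) - 4 = 2 * d - 2 := by ring
  have e2 : d + 1 - 3 = d - 2 := by ring
  unfold Q1 at h
  rw [e1, e2] at h
  exact down₁ hT hS h0 hX hZX hZ (by ring) (by ring) (by omega) h hC hI hO

/-! ### Degree `(5, 3)` -/

include hW in
theorem q1_five_three_up {X : S.C} {d : ℤ} (h0 : 0 ≤ d)
    (hC : ∀ C, C ≤ X → S.dim C < d → (nc hT S C (2 * d - 4) (d - 2)).Onto)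
    (hO : (nc hT S X (2 * d - 3) (d - 2)).Onto)
    (hI : Function.Injective (nc hT S X (2 * d - 4) (d - 2)).lam) (h : Q1Closed S X d 4 2) :
    Q1 S X (d + 1) 5 3 := by
  have e1 : 2 * (d + 1) - 5 = 2 * d - 3 := by ring
  have e2 : d + 1 - 3 = d - 2 := by ring
  unfold Q1
  rw [e1, e2]
  exact up hT hS h0 (m := 2 * d - 5) (by ring) (by ring) hO hI hC
    (fun C _ _ => (cLow hT hW C (by omega)).2) fun Z hZX hZ => h Z hZX hZ

include hW in
theorem q1_five_three_down {X : S.C} {d : ℤ} (h0 : 0 ≤ d) (hX : S.dim X ≤ d + 1)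
    (hO : (nc hT S X (2 * d - 4) (d - 2)).Onto) (h : Q1 S X (d + 1) 5 3) :
    Q1Closed S X d 4 2 := by
  intro Z hZX hZ
  have e1 : 2 * (d + 1) - 5 = 2 * d - 3 := by ring
  have e2 : d + 1 - 3 = d - 2 := by ring
  unfold Q1 at h
  rw [e1, e2] at h
  exact down₁ hT hS h0 hX hZX hZ (m := 2 * d - 5) (by ring) (by ring) (by omega) h
    (fun C _ _ => (cLow hT hW C (by omega)).1) (cLow hT hW X (by omega)).2 hO

/-! ### The degrees `(3, 2)` and `(4, 2)` for pure schemes -/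

theorem q1_pure_three_two {A : S.C} {d : ℤ} (h0 : 0 ≤ d) (hA : S.dim A ≤ d)
    (hP : Pure T (S.cl A))
    (hC : ∀ C, C ≤ A → S.dim C < d → (nc hT S C (2 * d - 4) (d - 2)).Onto) :
    Q1 S A d 3 2 ↔ Function.Injective (nc hT S A (2 * d - 4) (d - 2)).lam := by
  constructor
  · intro h
    exact inj₁ hT hS h0 hA (by ring) (by omega) h fun Z _ hZ =>
      cDiv hT hS (Int.le_sub_one_of_lt hZ) (by ring) (by ring)
  · intro h
    exact closed_up hT hS (by ring) (noInv_noG hT (hP (2 * d - 3) (d - 2) (by omega))).onto h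
      fun Z hZA hZ w hw => hC Z hZA hZ w (inG_of_inv hw)

theorem q1_four_two {A : S.C} {d : ℤ} (hW : HasWeights T) (h0 : 0 ≤ d) (hA : S.dim A ≤ d)
    (hC : ∀ C, C ≤ A → S.dim C < d → (nc hT S C (2 * d - 4) (d - 2)).Onto) :
    Q1 S A d 4 2 ↔ (nc hT S A (2 * d - 4) (d - 2)).Onto := by
  constructor
  · intro h
    exact onto_of_gen hT hS h0 hA (by omega) h hC
  · intro h
    exact q1_cycles hT hS hW (by ring) h

end

end Pool.Agent.K6.H28.FF
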