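import Pool.Agent.K6.H28.FF.Alg

/-!
# Localisation on the strata
-/

set_option autoImplicit false
set_option linter.unusedSectionVars false
set_option linter.unusedVariables false

namespace Pool.Agent.K6.H28.FF

open Module Pool.Agent.W495.FM
open scoped TensorProduct

noncomputable section

variable {Ω : Type} [Field Ω] [CharZero Ω] {V : Type} {T : Homology Ω V} (hT : IsHomology T)

theorem arr_g {A B : V} {i k i' k' : ℤ} (a : Hom T A i k B i' k') (x : T.E A i k) :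
    (a.arr hT).g x = a.g x := a.lin.map_apply x

theorem comp_g {A B D : V} {i₁ k₁ i₂ k₂ i₄ k₄ : ℤ}
    {a : Hom T A i₁ k₁ B i₂ k₂} {b : Hom T B i₂ k₂ D i₄ k₄} {c : Hom T A i₁ k₁ D i₄ k₄}
    (h : Comp a b c) (x : T.E A i₁ k₁) : (b.arr hT).g ((a.arr hT).g x) = (c.arr hT).g x := by
  rw [arr_g, arr_g, arr_g]
  exact h.2 x

theorem comp_t {A B D : V} {i₁ k₁ i₂ k₂ i₄ k₄ : ℤ}
    {a : Hom T A i₁ k₁ B i₂ k₂} {b : Hom T B i₂ k₂ D i₄ k₄} {c : Hom T A i₁ k₁ D i₄ k₄}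
    (h : Comp a b c) (t : Ω ⊗[ℚ] (node T hT A i₁ k₁).M) :
    (b.arr hT).ten ((a.arr hT).ten t) = (c.arr hT).ten t :=
  ten_comp _ _ _ h.1 t

theorem comm_g {A B C D : V} {i₁ k₁ i₂ k₂ i₃ k₃ i₄ k₄ : ℤ}
    {a : Hom T A i₁ k₁ B i₂ k₂} {b : Hom T B i₂ k₂ D i₄ k₄} {c : Hom T A i₁ k₁ C i₃ k₃}
    {d : Hom T C i₃ k₃ D i₄ k₄} (h : Comm a b c d) (x : T.E A i₁ k₁) :
    (b.arr hT).g ((a.arr hT).g x) = (d.arr hT).g ((c.arr hT).g x) := by
  rw [arr_g, arr_g, arr_g, arr_g]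
  exact h.2 x

theorem comm_t {A B C D : V} {i₁ k₁ i₂ k₂ i₃ k₃ i₄ k₄ : ℤ}
    {a : Hom T A i₁ k₁ B i₂ k₂} {b : Hom T B i₂ k₂ D i₄ k₄} {c : Hom T A i₁ k₁ C i₃ k₃}
    {d : Hom T C i₃ k₃ D i₄ k₄} (h : Comm a b c d) (t : Ω ⊗[ℚ] (node T hT A i₁ k₁).M) :
    (b.arr hT).ten ((a.arr hT).ten t) = (d.arr hT).ten ((c.arr hT).ten t) :=
  ten_comm _ _ _ _ h.1 t

variable (S : Strata T)

/-- The groups of a closed subset. -/
abbrev nc (A : S.C) (n k : ℤ) : Node Ω := node T hT (S.cl A) n k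

/-- The groups of a locally closed subset. -/
abbrev no (A B : S.C) (n k : ℤ) : Node Ω := node T hT (S.op A B) n k

variable {S}

/-- Push-forward for closed subsets. -/
abbrev aInc {A A' : S.C} (h : A ≤ A') (n k : ℤ) : Arrow (nc hT S A n k) (nc hT S A' n k) :=
  (S.inc h n k).arr hT

/-- Restriction to the open subset. -/
abbrev aJ (A B : S.C) (n k : ℤ) : Arrow (nc hT S A n k) (no hT S A B n k) := (S.j A B n k).arr hT

/-- The boundary map. -/
abbrev aDel (A B : S.C) (n k : ℤ) : Arrow (no hT S A B (n + 1) k) (nc hT S (A ⊓ B) n k) :=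
  (S.del A B n k).arr hT

/-- Restriction. -/
abbrev aRes (A : S.C) {B B' : S.C} (h : B ≤ B') (n k : ℤ) :
    Arrow (no hT S A B n k) (no hT S A B' n k) := (S.res A h n k).arr hT

/-- Push-forward. -/
abbrev aPush {A A' : S.C} (h : A ≤ A') (B : S.C) (n k : ℤ) :
    Arrow (no hT S A B n k) (no hT S A' B n k) := (S.push h B n k).arr hT

variable (hS : IsStrata S)

include hS

theorem ex_inc_j (A B : S.C) (n k : ℤ) :
    Function.Exact (aInc hT (inf_le_left : A ⊓ B ≤ A) n k).g (aJ hT A B n k).g :=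
  (hS.exact A B n k).1.snd

theorem ex_j_del (A B : S.C) (n k : ℤ) :
    Function.Exact (aJ hT A B (n + 1) k).g (aDel hT A B n k).g :=
  (hS.exact A B n k).2.1.snd

theorem ex_del_inc (A B : S.C) (n k : ℤ) :
    Function.Exact (aDel hT A B n k).g (aInc hT (inf_le_left : A ⊓ B ≤ A) n k).g :=
  (hS.exact A B n k).2.2.snd

theorem ex_inc_j' (A B : S.C) (n k : ℤ) :
    Function.Exact (aInc hT (inf_le_left : A ⊓ B ≤ A) n k).ten (aJ hT A B n k).ten :=
  Arrow.exact_ten _ _ (hS.exact A B n k).1.1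

theorem ex_j_del' (A B : S.C) (n k : ℤ) :
    Function.Exact (aJ hT A B (n + 1) k).ten (aDel hT A B n k).ten :=
  Arrow.exact_ten _ _ (hS.exact A B n k).2.1.1

theorem ex_del_inc' (A B : S.C) (n k : ℤ) :
    Function.Exact (aDel hT A B n k).ten (aInc hT (inf_le_left : A ⊓ B ≤ A) n k).ten :=
  Arrow.exact_ten _ _ (hS.exact A B n k).2.2.1

theorem dim_inf {A B : S.C} {d : ℤ} (h : S.dim B < d) : S.dim (A ⊓ B) < d :=
  lt_of_le_of_lt (hS.dim_mono inf_le_right) h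

theorem dim_sup_lt {A B : S.C} {d : ℤ} (hA : S.dim A < d) (hB : S.dim B < d) :
    S.dim (A ⊔ B) < d :=
  Int.lt_of_le_sub_one (hS.dim_sup (Int.le_sub_one_of_lt hA) (Int.le_sub_one_of_lt hB))

/-- Motivic classes vanish at the generic points in the degrees `n < d + k`. -/
theorem vanish_ten {A : S.C} {d n k : ℤ} (hA : S.dim A ≤ d) (hn : n < d + k) {B : S.C}
    (hB : S.dim B < d) (t : Ω ⊗[ℚ] (no hT S A B n k).M) :
    ∃ (B' : S.C) (h : B ≤ B'), S.dim B' < d ∧ (aRes hT A h n k).ten t = 0 := by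
  induction t using TensorProduct.induction_on with
  | zero => exact ⟨B, le_rfl, hB, map_zero _⟩
  | tmul c x =>
    obtain ⟨B', h, hB', h1⟩ := hS.generic A d n k hA hn B hB x
    refine ⟨B', h, hB', ?_⟩
    change c ⊗ₜ[ℚ] ((S.res A h n k).f x) = 0
    rw [h1, TensorProduct.tmul_zero]
  | add x y hx hy =>
    obtain ⟨B₁, h₁, hB₁, hx⟩ := hx
    obtain ⟨B₂, h₂, hB₂, hy⟩ := hy
    refine ⟨B₁ ⊔ B₂, h₁.trans le_sup_left, dim_sup_lt hS hB₁ hB₂, ?_⟩
    rw [map_add]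
    have e1 := comp_t hT (hS.res_res A h₁ le_sup_left (h₁.trans (le_sup_left : B₁ ≤ B₁ ⊔ B₂)) n k) x
    have e2 := comp_t hT (hS.res_res A h₂ le_sup_right (h₁.trans (le_sup_left : B₁ ≤ B₁ ⊔ B₂)) n k) y
    rw [← e1, ← e2, hx, hy, map_zero, map_zero, add_zero]

/-- Invariant classes which are motivic at the generic points, on nodes. -/
theorem gen_apply {A : S.C} {d n k : ℤ} (hG : Gen S A d n k) {B : S.C} (hB : S.dim B < d)
    (x : (no hT S A B n k).E) (hx : (no hT S A B n k).φ x = x) :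
    ∃ (B' : S.C) (h : B ≤ B'), S.dim B' < d ∧ ∃ t, (no hT S A B' n k).lam t = (aRes hT A h n k).g x := by
  obtain ⟨B', h, hB', h1⟩ := hG B hB x ⟨B, le_rfl, hB,
    ((S.res A le_rfl n k).frob x).trans (congrArg _ ((frob_iff hT _ n k x).2 hx))⟩
  obtain ⟨t, ht⟩ := (mem_span_iff hT _ _ _ _).1 h1
  exact ⟨B', h, hB', t, by rw [ht]; exact (arr_g hT _ _).symm⟩

/-- Conversely. -/
theorem gen_intro {A : S.C} {d n k : ℤ}
    (h : ∀ B, S.dim B < d → ∀ x : (no hT S A B n k).E, (no hT S A B n k).φ x = x →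
      ∃ (B' : S.C) (h : B ≤ B'), S.dim B' < d ∧
        ∃ t, (no hT S A B' n k).lam t = (aRes hT A h n k).g x) : Gen S A d n k := by
  rintro B hB x ⟨B₁, h₁, hB₁, hx⟩
  obtain ⟨B', h', hB', t, ht⟩ := h B₁ hB₁ _ ((frob_iff hT _ n k _).1 hx)
  refine ⟨B', h₁.trans h', hB', (mem_span_iff hT _ _ _ _).2 ⟨t, ?_⟩⟩
  rw [ht, arr_g]
  exact (hS.res_res A h₁ h' (h₁.trans h') n k).2 x

/-- Generalised eigenvectors vanish at the generic points in the degrees `n < d + k`. -/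
theorem gen_vanish {A : S.C} {d n k : ℤ} (hA : S.dim A ≤ d) (hn : n < d + k)
    (hG : Gen S A d n k) {B : S.C} (hB : S.dim B < d) (u : (no hT S A B n k).E)
    (hu : (no hT S A B n k).InG u) :
    ∃ (B' : S.C) (h : B ≤ B'), S.dim B' < d ∧ (aRes hT A h n k).g u = 0 := by
  obtain ⟨r, hr⟩ := hu
  induction r generalizing B u with
  | zero =>
    have h1 : u = 0 := hr
    exact ⟨B, le_rfl, hB, by rw [h1, map_zero]⟩
  | succ r ih =>
    rw [pow_succ, Module.End.mul_apply] at hr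
    obtain ⟨B₁, h₁, hB₁, h1⟩ := ih hB _ hr
    rw [← N_arr, N_eq, sub_eq_zero] at h1
    obtain ⟨B₂, h₂, hB₂, t, ht⟩ := gen_apply hT hS hG hB₁ _ h1
    obtain ⟨B₃, h₃, hB₃, h3⟩ := vanish_ten hT hS hA hn hB₂ t
    refine ⟨B₃, (h₁.trans h₂).trans h₃, hB₃, ?_⟩
    have e1 := comp_g hT (hS.res_res A h₁ h₂ (h₁.trans h₂) n k) u
    have e2 := comp_g hT (hS.res_res A (h₁.trans h₂) h₃ ((h₁.trans h₂).trans h₃) n k) u
    rw [← e2, ← e1, ← ht, ← Arrow.lam_ten, h3, map_zero]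

/-- Invariant classes of a closed subset which are motivic at the generic points. -/
theorem lift_mot {Z : S.C} {d m k : ℤ} (h0 : 0 ≤ d) (hG : Gen S Z d (m + 1) k)
    (hO : ∀ C, C ≤ Z → S.dim C < d → (nc hT S C (m + 1) k).Onto)
    (hI : ∀ C, C ≤ Z → S.dim C < d → Function.Injective (nc hT S C m k).lam)
    (w : (nc hT S Z (m + 1) k).E) (hw : (nc hT S Z (m + 1) k).φ w = w) :
    ∃ t, (nc hT S Z (m + 1) k).lam t = w := by
  have hb : S.dim (⊥ : S.C) < d := by rw [hS.dim_bot]; omega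
  obtain ⟨B', h, hB', v, hv⟩ := gen_apply hT hS hG hb ((aJ hT Z ⊥ (m + 1) k).g w) (by
    rw [Arrow.frob, hw])
  rw [comp_g hT (hS.j_res Z h (m + 1) k) w] at hv
  have hd : S.dim (Z ⊓ B') < d := dim_inf hS hB'
  have h1 : (aDel hT Z B' m k).ten v = 0 := by
    apply hI _ inf_le_left hd
    rw [Arrow.lam_ten, hv, map_zero]
    exact (ex_j_del hT hS Z B' m k _).2 ⟨w, rfl⟩
  obtain ⟨t, ht⟩ := (ex_j_del' hT hS Z B' m k v).1 h1
  have h2 : (aJ hT Z B' (m + 1) k).g (w - (nc hT S Z (m + 1) k).lam t) = 0 := by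
    rw [map_sub, ← Arrow.lam_ten, ht, hv, sub_self]
  obtain ⟨y, hy, hy'⟩ := Arrow.fitting _ _ (ex_inc_j hT hS Z B' (m + 1) k) _
    (inG_sub (inG_of_inv hw) (Node.inG_lam _ t)) h2
  obtain ⟨y', rfl⟩ := hO _ inf_le_left hd y hy
  refine ⟨t + (aInc hT (inf_le_left : Z ⊓ B' ≤ Z) (m + 1) k).ten y', ?_⟩
  rw [map_add, Arrow.lam_ten, hy']
  abel

/-- Surjectivity on a closed subset if the classes at the generic points vanish. -/
theorem onto_of_gen {Z : S.C} {d n k : ℤ} (h0 : 0 ≤ d) (hZ : S.dim Z ≤ d) (hn : n < d + k)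
    (hG : Gen S Z d n k) (hO : ∀ C, C ≤ Z → S.dim C < d → (nc hT S C n k).Onto) :
    (nc hT S Z n k).Onto := by
  intro w hw
  have hb : S.dim (⊥ : S.C) < d := by rw [hS.dim_bot]; omega
  obtain ⟨B', h, hB', h1⟩ := gen_vanish hT hS hZ hn hG hb ((aJ hT Z ⊥ n k).g w)
    ((aJ hT Z ⊥ n k).inG hw)
  rw [comp_g hT (hS.j_res Z h n k) w] at h1
  obtain ⟨y, hy, hy'⟩ := Arrow.fitting _ _ (ex_inc_j hT hS Z B' n k) _ hw h1
  obtain ⟨y', rfl⟩ := hO _ inf_le_left (dim_inf hS hB') y hy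
  exact ⟨(aInc hT (inf_le_left : Z ⊓ B' ≤ Z) n k).ten y', by rw [Arrow.lam_ten, hy']⟩

/-- From the closed subsets to the generic point. -/
theorem gen_of_closed {X : S.C} {e m k : ℤ} (hO : (nc hT S X (m + 1) k).Onto)
    (hI : Function.Injective (nc hT S X m k).lam)
    (hZ : ∀ Z, Z ≤ X → S.dim Z < e → ∀ w : (nc hT S Z m k).E, (nc hT S Z m k).φ w = w →
      ∃ t, (nc hT S Z m k).lam t = w) : Gen S X e (m + 1) k := by
  refine gen_intro hT hS fun B hB x hx => ?_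
  obtain ⟨t, ht⟩ := hZ (X ⊓ B) inf_le_left (dim_inf hS hB) ((aDel hT X B m k).g x) (by
    rw [Arrow.frob, hx])
  have h1 : (aInc hT (inf_le_left : X ⊓ B ≤ X) m k).ten t = 0 := by
    apply hI
    rw [Arrow.lam_ten, ht, map_zero]
    exact (ex_del_inc hT hS X B m k _).2 ⟨x, rfl⟩
  obtain ⟨s, hs⟩ := (ex_del_inc' hT hS X B m k t).1 h1
  have h2 : (aDel hT X B m k).g (x - (no hT S X B (m + 1) k).lam s) = 0 := by
    rw [map_sub, ← Arrow.lam_ten, hs, ht, sub_self]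
  obtain ⟨y, hy, hy'⟩ := Arrow.fitting _ _ (ex_j_del hT hS X B m k) _
    (inG_sub (inG_of_inv hx) (Node.inG_lam _ s)) h2
  obtain ⟨y', rfl⟩ := hO y hy
  refine ⟨B, le_rfl, hB, (aRes hT X (le_refl B) (m + 1) k).ten
    (s + (aJ hT X B (m + 1) k).ten y'), ?_⟩
  rw [Arrow.lam_ten, map_add, Arrow.lam_ten, hy']
  congr 1
  abel

/-- The conclusion of the following two statements: the class `w` on a closed subset becomes the
boundary of a motivic class. -/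
def Bounds (X : S.C) (e m k : ℤ) {B : S.C} (w : (nc hT S (X ⊓ B) m k).E) : Prop :=
  ∃ (B' : S.C) (h : B ≤ B'), S.dim B' < e ∧
    ∃ s, (aInc hT (inf_le_inf_left X h) m k).g w =
      (nc hT S (X ⊓ B') m k).lam ((aDel hT X B' m k).ten s)

/-- The kernel of the push-forward: all generalised eigenvectors. -/
theorem kernel₁ {X : S.C} {e m k : ℤ} (hX : S.dim X ≤ e) (hn : m + 1 < e + k)
    (hG : Gen S X e (m + 1) k) {B : S.C} (hB : S.dim B < e) (w : (nc hT S (X ⊓ B) m k).E)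
    (hw : (nc hT S (X ⊓ B) m k).InG w)
    (hw' : (aInc hT (inf_le_left : X ⊓ B ≤ X) m k).g w = 0) : Bounds hT X e m k w := by
  obtain ⟨u, hu, rfl⟩ := Arrow.fitting _ _ (ex_del_inc hT hS X B m k) _ hw hw'
  obtain ⟨B', h, hB', h1⟩ := gen_vanish hT hS hX hn hG hB u hu
  refine ⟨B', h, hB', 0, ?_⟩
  have e1 := comm_g hT (hS.del_res X h m k) u
  rw [← e1, h1, map_zero, map_zero, map_zero]

/-- The kernel of the push-forward: invariant classes. -/
theorem kernel₂ {X : S.C} {e m k : ℤ} (hN : NoG (nc hT S X (m + 1) k))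
    (hG : Gen S X e (m + 1) k) {B : S.C} (hB : S.dim B < e) (w : (nc hT S (X ⊓ B) m k).E)
    (hw : (nc hT S (X ⊓ B) m k).φ w = w)
    (hw' : (aInc hT (inf_le_left : X ⊓ B ≤ X) m k).g w = 0) : Bounds hT X e m k w := by
  obtain ⟨u, hu, rfl⟩ := Arrow.fitting _ _ (ex_del_inc hT hS X B m k) _ (inG_of_inv hw) hw'
  have h1 : (aDel hT X B m k).g (((no hT S X B (m + 1) k).φ - 1) u) = 0 := by
    rw [← N_arr, N_eq, hw, sub_self]
  obtain ⟨y, hy, hy'⟩ := Arrow.fitting _ _ (ex_j_del hT hS X B m k) _ (inG_N hu) h1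
  rw [hN y hy, map_zero] at hy'
  have h2 : (no hT S X B (m + 1) k).φ u = u := by
    rw [← sub_eq_zero]
    exact hy'.symm
  obtain ⟨B', h, hB', s, hs⟩ := gen_apply hT hS hG hB u h2
  refine ⟨B', h, hB', s, ?_⟩
  have e1 := comm_g hT (hS.del_res X h m k) u
  rw [← e1, ← hs, Arrow.lam_ten]

/-- A motivic class of `X` is supported on a closed subset. -/
theorem support {X : S.C} {e n k : ℤ} (he : 0 ≤ e) (hX : S.dim X ≤ e) (hn : n < e + k)
    {B : S.C} (hB : S.dim B < e) (t : Ω ⊗[ℚ] (nc hT S X n k).M) :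
    ∃ (B' : S.C) (h : B ≤ B'), S.dim B' < e ∧
      ∃ z, (aInc hT (inf_le_left : X ⊓ B' ≤ X) n k).ten z = t := by
  obtain ⟨B', h, hB', h1⟩ := vanish_ten hT hS hX hn hB ((aJ hT X B n k).ten t)
  rw [comp_t hT (hS.j_res X h n k) t] at h1
  exact ⟨B', h, hB', (ex_inc_j' hT hS X B' n k t).1 h1⟩

/-- Motivic classes on a closed subset which vanish on `X` vanish on a larger closed subset. -/
theorem dies {X : S.C} {e m k : ℤ} (hX : S.dim X ≤ e) (hn : m + 1 < e + k)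
    {B : S.C} (hB : S.dim B < e) (t : Ω ⊗[ℚ] (nc hT S (X ⊓ B) m k).M)
    (ht : (aInc hT (inf_le_left : X ⊓ B ≤ X) m k).ten t = 0) :
    ∃ (B' : S.C) (h : B ≤ B'), S.dim B' < e ∧ (aInc hT (inf_le_inf_left X h) m k).ten t = 0 := by
  obtain ⟨s, rfl⟩ := (ex_del_inc' hT hS X B m k t).1 ht
  obtain ⟨B', h, hB', h1⟩ := vanish_ten hT hS hX hn hB s
  refine ⟨B', h, hB', ?_⟩
  have e1 := comm_t hT (hS.del_res X h m k) s
  rw [← e1, h1, map_zero]

/-- Injectivity on `X`. -/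
theorem inj_of_gen {X : S.C} {e m k : ℤ} (he : 0 ≤ e) (hX : S.dim X ≤ e) (hn : m < e + k)
    (hK : ∀ B : S.C, S.dim B < e → ∀ w : (nc hT S (X ⊓ B) m k).E, (nc hT S (X ⊓ B) m k).φ w = w →
      (aInc hT (inf_le_left : X ⊓ B ≤ X) m k).g w = 0 → Bounds hT X e m k w)
    (hI : ∀ Z, Z ≤ X → S.dim Z < e → Function.Injective (nc hT S Z m k).lam) :
    Function.Injective (nc hT S X m k).lam := by
  rw [injective_iff_map_eq_zero]
  intro t ht
  have hb : S.dim (⊥ : S.C) < e := by rw [hS.dim_bot]; omega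
  obtain ⟨B, -, hB, z, rfl⟩ := support hT hS he hX hn hb t
  rw [Arrow.lam_ten] at ht
  obtain ⟨B', h, hB', s, hs⟩ := hK B hB _ (Node.φ_lam _ z) ht
  rw [← Arrow.lam_ten] at hs
  have h1 := hI _ inf_le_left (dim_inf hS hB') hs
  have e1 := comp_t hT (hS.inc_inc (inf_le_inf_left X h) (inf_le_left : X ⊓ B' ≤ X)
    (inf_le_left : X ⊓ B ≤ X) m k) z
  rw [← e1, h1]
  exact (ex_del_inc' hT hS X B' m k _).2 ⟨s, rfl⟩

end

end Pool.Agent.K6.H28.FF
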